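import Mathlib

set_option autoImplicit false

/-! A stratifiable space which is not M1: the combinatorial core.
`W` is the type of finite binary trees with natural numbers at the leaves. -/

namespace Pool.Agent.Lib.MP_12964e_gt.h39c

/-- finite binary trees; a leaf is a copy of the root point, `nd p s` is the point `s` of the section of `p` -/
inductive W : Type
  | lf : ℕ → W
  | nd : W → W → W

namespace W

/-- the head index of a prefix -/
def nu : W → ℕ
  | lf n => n
  | nd p _ => nu p

/-- leaf test -/
def leaf : W → Prop
  | lf _ => True
  | nd _ _ => False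

/-- code used for countability -/
def code : W → ℕ
  | lf n => 2 * n
  | nd p s => 2 * Nat.pair (code p) (code s) + 1

theorem code_injective : Function.Injective code := by
  intro x
  induction x with
  | lf n =>
    intro y h
    cases y with
    | lf m => simp only [code] at h; have : n = m := by omega
              rw [this]
    | nd p s => simp only [code] at h; omega
  | nd p s ihp ihs =>
    intro y h
    cases y with
    | lf m => simp only [code] at h; omega
    | nd q t =>
      simp only [code] at h
      have h1 : Nat.pair (code p) (code s) = Nat.pair (code q) (code t) := by omega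
      rw [Nat.pair_eq_pair] at h1
      rw [ihp h1.1, ihs h1.2]

instance : Countable W := code_injective.countable

theorem nd_ne_left (p s : W) : nd p s ≠ p := by
  induction p generalizing s with
  | lf n => intro h; cases h
  | nd q t ihq _ =>
    intro h
    injection h with h1 h2
    exact ihq t h1

end W

open W

/-- parameters -/
abbrev Par : Type := W → ℕ

/-- the parameter of the section of `p` -/
def sub (f : Par) (p : W) : Par := fun z => f (nd p z)

open Classical in
/-- number of defects of a prefix with respect to a parameter -/
noncomputable def D : W → Par → ℕ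
  | lf _, _ => 0
  | nd p s, f => D p f + (if s.leaf ∨ f (nd p (lf 0)) + D s (fun z => f (nd p z)) ≤ nu s then 0 else 1)

/-- the basic neighbourhood of the root given by a parameter -/
def U (f : Par) : Set W := {t | t.leaf ∨ f (lf 0) + D t f ≤ nu t}

theorem lf_mem_U (f : Par) (n : ℕ) : lf n ∈ U f := Or.inl trivial

theorem nd_mem_U {f : Par} {p s : W} : nd p s ∈ U f ↔ f (lf 0) + D (nd p s) f ≤ nu p := by
  constructor
  · rintro (h | h)
    · exact h.elim
    · exact h
  · intro h
    exact Or.inr h

open Classical in
theorem D_nd (p s : W) (f : Par) : D (nd p s) f = D p f + (if s ∈ U (sub f p) then 0 else 1) := by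
  simp only [D]
  by_cases h : s ∈ U (sub f p)
  · rw [if_pos h, if_pos]
    exact h
  · rw [if_neg h, if_neg]
    exact h

theorem D_nd_mem {p s : W} {f : Par} (h : s ∈ U (sub f p)) : D (nd p s) f = D p f := by
  rw [D_nd, if_pos h, add_zero]

theorem D_nd_not_mem {p s : W} {f : Par} (h : s ∉ U (sub f p)) : D (nd p s) f = D p f + 1 := by
  rw [D_nd, if_neg h]

theorem D_le_nd (p s : W) (f : Par) : D p f ≤ D (nd p s) f := by
  rw [D_nd]; omega

theorem D_nd_le (p s : W) (f : Par) : D (nd p s) f ≤ D p f + 1 := by
  rw [D_nd]; split_ifs <;> omega

theorem mem_of_D_eq {p s : W} {f : Par} (h : D (nd p s) f = D p f) : s ∈ U (sub f p) := by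
  by_contra hc
  rw [D_nd_not_mem hc] at h
  omega

/-- `D` is monotone in the parameter. -/
theorem D_mono (t : W) : ∀ {f g : Par}, f ≤ g → D t f ≤ D t g := by
  induction t with
  | lf n => intro f g _; exact le_refl 0
  | nd p s ihp ihs =>
    intro f g h
    have h1 := ihp h
    have h2 : sub f p ≤ sub g p := fun z => h _
    by_cases hs : s ∈ U (sub g p)
    · have : s ∈ U (sub f p) := by
        rcases hs with hs | hs
        · exact Or.inl hs
        · refine Or.inr (le_trans ?_ hs)
          exact Nat.add_le_add (h2 _) (ihs h2)
      rw [D_nd_mem this, D_nd_mem hs]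
      exact h1
    · rw [D_nd_not_mem hs]
      exact le_trans (D_nd_le _ _ _) (by omega)

theorem U_anti {f g : Par} (h : f ≤ g) : U g ⊆ U f := by
  rintro t (ht | ht)
  · exact Or.inl ht
  · exact Or.inr (le_trans (Nat.add_le_add (h _) (D_mono t h)) ht)

/-- points strictly above the prefix `p` -/
inductive Ab (p : W) : W → Prop
  | base (u : W) : Ab p (nd p u)
  | step (q u : W) : Ab p q → Ab p (nd q u)

/-- the basic open cell at the prefix `p` given by the parameter `f` -/
inductive EE (f : Par) (p : W) : W → Prop
  | base (u : W) : u ∈ U (sub f p) → EE f p (nd p u)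
  | step (q u : W) : EE f p q → u ∈ U (sub f q) → EE f p (nd q u)

/-- the basic open cell as a set -/
def E (f : Par) (p : W) : Set W := {x | EE f p x}

theorem E_sub_Ab {f : Par} {p x : W} (h : x ∈ E f p) : Ab p x := by
  induction h with
  | base u _ => exact Ab.base u
  | step q u _ _ ih => exact Ab.step q u ih

theorem nu_of_Ab {p x : W} (h : Ab p x) : nu x = nu p := by
  induction h with
  | base u => rfl
  | step q u _ ih => exact ih

theorem D_of_Ab {p x : W} (f : Par) (h : Ab p x) : D p f ≤ D x f := by
  induction h with
  | base u => exact D_le_nd _ _ _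
  | step q u _ ih => exact le_trans ih (D_le_nd _ _ _)

theorem D_of_E {f : Par} {p x : W} (h : x ∈ E f p) : D x f = D p f := by
  induction h with
  | base u hu => exact D_nd_mem hu
  | step q u _ hu ih => rw [D_nd_mem hu]; exact ih

theorem not_leaf_of_Ab {p x : W} (h : Ab p x) : ¬ x.leaf := by
  cases h <;> exact id

theorem not_leaf_of_E {f : Par} {p x : W} (h : x ∈ E f p) : ¬ x.leaf :=
  not_leaf_of_Ab (E_sub_Ab h)

theorem E_anti {f g : Par} (h : f ≤ g) (p : W) : E g p ⊆ E f p := by
  intro x hx
  induction hx with
  | base u hu => exact EE.base u (U_anti (fun z => h _) hu)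
  | step q u _ hu ih => exact EE.step q u ih (U_anti (fun z => h _) hu)

theorem root_mem_E (f : Par) (p : W) (n : ℕ) : nd p (lf n) ∈ E f p :=
  EE.base _ (lf_mem_U _ _)

/-- cells above a point of a cell are inside the cell -/
theorem E_sub_E {f : Par} {p x : W} (h : x ∈ E f p) : E f x ⊆ E f p := by
  intro y hy
  induction hy with
  | base u hu => exact EE.step _ u h hu
  | step q u _ hu ih => exact EE.step q u ih hu

theorem Ab_trans {p q x : W} (h1 : Ab p q) (h2 : Ab q x) : Ab p x := by
  induction h2 with
  | base u => exact Ab.step _ u h1
  | step r u _ ih => exact Ab.step r u ih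

/-- the points strictly above two different immediate extensions are different -/
theorem Ab_tree {a b x : W} (h1 : Ab a x) (h2 : Ab b x) : a = b ∨ Ab a b ∨ Ab b a := by
  induction h1 generalizing b with
  | base u =>
    cases h2 with
    | base => exact Or.inl rfl
    | step q u hq => exact Or.inr (Or.inr hq)
  | step q u hq ih =>
    cases h2 with
    | base => exact Or.inr (Or.inl hq)
    | step q u hq' => exact ih hq'

/-- size -/
def sz : W → ℕ
  | lf _ => 1
  | nd p s => sz p + sz s + 1

theorem sz_lt_of_Ab {p x : W} (h : Ab p x) : sz p < sz x := by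
  induction h with
  | base u => simp only [sz]; omega
  | step q u _ ih => simp only [sz]; omega

theorem Ab_irrefl {p : W} (h : Ab p p) : False := lt_irrefl _ (sz_lt_of_Ab h)

/-- different immediate extensions of a prefix have disjoint upper cones -/
theorem Ab_nd_inj {p s s' x : W} (h1 : Ab (nd p s) x) (h2 : Ab (nd p s') x) : s = s' := by
  rcases Ab_tree h1 h2 with h | h | h
  · injection h
  · exfalso
    cases h with
    | step q u hq =>
      exact Ab_irrefl (Ab_trans (Ab.base s) hq)
  · exfalso
    cases h with
    | step q u hq =>
      exact Ab_irrefl (Ab_trans (Ab.base s') hq)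

end Pool.Agent.Lib.MP_12964e_gt.h39c
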