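import Pool.Agent.Lib.MP_12964e_gt.h39c.Top

set_option autoImplicit false

namespace Pool.Agent.Lib.MP_12964e_gt.h39c

open W

/-- section of a set at the prefix `p` -/
def sec (R : Set W) (p : W) : Set W := {s | nd p s ∈ R}

theorem isOpen_sec {G : Set W} (hG : IsOpen G) (p : W) : IsOpen (sec G p) := by
  rw [isOpen_W_iff]
  intro s hs
  obtain ⟨N, ⟨W0, hW0, J, _, g, rfl⟩, hsub⟩ := isOpen_W_iff.1 hG (nd p s) hs
  exact ⟨W0, hW0, fun s' hs' => hsub (B_mem hs')⟩

theorem isClosed_sec {R : Set W} (hR : IsClosed R) (p : W) : IsClosed (sec R p) := by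
  rw [← isOpen_compl_iff] at hR ⊢
  exact isOpen_sec hR p

/-- regular closed sets -/
def RC (R : Set W) : Prop := IsClosed R ∧ R ⊆ closure (interior R)

/-- an open set inside a single section is empty -/
theorem no_E_in_sec {f : Par} {p' p : W} (h : ∀ x ∈ E f p', ∃ s, x = nd p s) : False := by
  obtain ⟨s, hs⟩ := h _ (root_mem_E f p' 0)
  obtain ⟨s', hs'⟩ := h _ (E_sub_E (root_mem_E f p' 0) (root_mem_E f _ 0))
  injection hs with h1 _
  injection hs' with h3 _
  rw [h1] at h3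
  exact nd_ne_left _ _ h3

theorem mem_closure_W_iff {A : Set W} {t : W} :
    t ∈ closure A ↔ ∀ N ∈ nhd t, (N ∩ A).Nonempty := by
  rw [mem_closure_iff]
  constructor
  · intro h N hN
    exact h N (isOpen_nhd hN) (nhd_mem hN)
  · intro h o ho hto
    obtain ⟨N, hN, hsub⟩ := isOpen_W_iff.1 ho t hto
    obtain ⟨x, hx⟩ := h N hN
    exact ⟨x, hsub hx.1, hx.2⟩

/-- FATNESS: sections of regular closed sets are regular closed. -/
theorem RC_sec {R : Set W} (hR : RC R) (p : W) : RC (sec R p) := by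
  classical
  refine ⟨isClosed_sec hR.1 p, ?_⟩
  intro s hs
  by_contra hcl
  rw [mem_closure_W_iff] at hcl
  push Not at hcl
  obtain ⟨N, hN, hNi⟩ := hcl
  rw [Set.eq_empty_iff_forall_notMem] at hNi
  set A : Set W := {s' | s' ∈ N ∧ ∀ f : Par, ∃ x ∈ E f (nd p s'), x ∈ R} with hA
  have hsmall : Small A := by
    by_contra hns
    unfold Small at hns
    push Not at hns
    obtain ⟨f, p0, hf⟩ := hns
    have hVo : IsOpen (E f p0 ∩ N) := (isOpen_E f p0).inter (isOpen_nhd hN)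
    have hVsub : E f p0 ∩ N ⊆ sec R p := by
      rintro v ⟨hv1, hv2⟩
      change nd p v ∈ R
      rw [← hR.1.closure_eq, mem_closure_W_iff]
      rintro N' ⟨W', hW', J, hJ, g, rfl⟩
      obtain ⟨f1, p1, h1, h2⟩ := exists_E_avoid (G := W' ∩ (E f p0 ∩ N))
        ((isOpen_nhd hW').inter hVo) ⟨v, nhd_mem hW', hv1, hv2⟩ hJ
      obtain ⟨x, hx, hxA⟩ := hf f1 p1 (fun y hy => (h1 hy).2.1)
      obtain ⟨z, hz, hzR⟩ := hxA.2 (g x)
      exact ⟨z, Or.inr ⟨x, (h1 hx).1, h2 x hx, hz⟩, hzR⟩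
    obtain ⟨x, hx, hxA⟩ := hf f p0 subset_rfl
    exact hNi x ⟨hxA.1, interior_maximal hVsub hVo ⟨hx, hxA.1⟩⟩
  have hch : ∀ s', ∃ g : Par, s' ∈ N → s' ∉ A → ∀ x ∈ E g (nd p s'), x ∉ R := by
    intro s'
    by_cases h : s' ∈ N ∧ s' ∉ A
    · have h2 : ¬ ∀ f : Par, ∃ x ∈ E f (nd p s'), x ∈ R := fun hc => h.2 ⟨h.1, hc⟩
      push Not at h2
      obtain ⟨g, hg⟩ := h2
      exact ⟨g, fun _ _ => hg⟩
    · exact ⟨0, fun h1 h2 => (h ⟨h1, h2⟩).elim⟩
  choose g hg using hch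
  have hB : B p N A g ∈ nhd (nd p s) := ⟨N, hN, A, hsmall, g, rfl⟩
  have hmeet := mem_closure_W_iff.1 (hR.2 hs) _ hB
  obtain ⟨f', p', hE⟩ := exists_E_sub_open ((isOpen_nhd hB).inter isOpen_interior) hmeet
  refine no_E_in_sec (f := f') (p' := p') (p := p) ?_
  intro x hx
  rcases (hE hx).1 with ⟨s', _, rfl⟩ | ⟨s', hs', hsA, hx'⟩
  · exact ⟨s', rfl⟩
  · exact absurd (interior_subset (hE hx).2) (hg s' hs' hsA x hx')

/-- number of entries of a prefix which are not leaves -/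
noncomputable def kap : W → ℕ
  | lf _ => 0
  | nd p s => kap p + (open Classical in if s.leaf then 0 else 1)

theorem kap_nd_not_leaf {p s : W} (h : ¬ s.leaf) : kap (nd p s) = kap p + 1 := by
  classical
  simp only [kap]
  rw [if_neg h]

theorem kap_nd_le (p s : W) : kap p ≤ kap (nd p s) := by
  simp only [kap]; omega

theorem kap_of_Ab {p x : W} (h : Ab p x) : kap p ≤ kap x := by
  induction h with
  | base u => exact kap_nd_le _ _
  | step q u _ ih => exact le_trans ih (kap_nd_le _ _)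

/-- exits -/
theorem exists_exit {O V0 J : Set W} (hO : IsOpen O) (hV0 : IsOpen V0) (hJ : Small J) {p u : W}
    (hpu : nd p u ∈ O) (hu : u ∈ V0) :
    ∃ s ∈ V0, s ∉ J ∧ nd (nd p s) (lf 0) ∈ O := by
  obtain ⟨N, ⟨W0, hW0, J', hJ', g, rfl⟩, hsub⟩ := isOpen_W_iff.1 hO (nd p u) hpu
  obtain ⟨s, hs, hsJ⟩ := exists_not_mem_small ((isOpen_nhd hW0).inter hV0) ⟨u, nhd_mem hW0, hu⟩
    (small_union hJ hJ')
  exact ⟨s, hs.2, fun h => hsJ (Or.inl h),
    hsub (Or.inr ⟨s, hs.1, fun h => hsJ (Or.inr h), root_mem_E _ _ 0⟩)⟩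

theorem exists_long {O : Set W} (hO : IsOpen O) {p : W} (hp : nd p (lf 0) ∈ O) (k : ℕ) :
    ∃ q, nu q = nu p ∧ k ≤ kap q ∧ nd q (lf 0) ∈ O := by
  induction k with
  | zero => exact ⟨p, rfl, Nat.zero_le _, hp⟩
  | succ k ih =>
    obtain ⟨q, h1, h2, h3⟩ := ih
    obtain ⟨s, _, hs, hsO⟩ := exists_exit hO isOpen_univ small_leaf h3 (Set.mem_univ _)
    refine ⟨nd q s, h1, ?_, hsO⟩
    rw [kap_nd_not_leaf hs]
    omega

/-- MARKS: a regular closed set through the root inside `U f` has a long section through its root inside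
the corresponding `U`. -/
theorem exists_mark {R : Set W} (hR : RC R) {f : Par} (h0 : lf 0 ∈ R) (hRU : R ⊆ U f)
    (N : ℕ) (L : ℕ → ℕ) :
    ∃ p, N ≤ nu p ∧ L (nu p) ≤ kap p ∧ nd p (lf 0) ∈ R ∧ sec R p ⊆ U (sub f p) := by
  classical
  set O := interior R with hOdef
  have hO : IsOpen O := isOpen_interior
  have hOR : O ⊆ R := interior_subset
  -- start
  obtain ⟨p1, hp1N, hp1O⟩ : ∃ p, N ≤ nu p ∧ nd p (lf 0) ∈ O := by
    have hU : U (fun _ => N) ∈ nhd (lf 0) := ⟨_, rfl⟩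
    have hmeet := mem_closure_W_iff.1 (hR.2 h0) _ hU
    obtain ⟨f', p', hE⟩ := exists_E_sub_open ((isOpen_U _).inter hO) hmeet
    have h1 := hE (root_mem_E f' p' 0)
    refine ⟨p', ?_, h1.2⟩
    have := nd_mem_U.1 h1.1
    omega
  obtain ⟨p0, hp0nu, hp0L, hp0O⟩ := exists_long hO hp1O (L (nu p1))
  -- maximal number of defects
  set S : Set ℕ := {d | ∃ q, (q = p0 ∨ Ab p0 q) ∧ nd q (lf 0) ∈ O ∧ D q f = d} with hS
  have hSne : S.Nonempty := ⟨D p0 f, p0, Or.inl rfl, hp0O, rfl⟩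
  have hSb : BddAbove S := by
    refine ⟨nu p0, ?_⟩
    rintro d ⟨q, hq, hqO, rfl⟩
    have h1 := nd_mem_U.1 (hRU (hOR hqO))
    have h2 : nu q = nu p0 := by
      rcases hq with rfl | hq
      · rfl
      · exact nu_of_Ab hq
    have h3 := D_le_nd q (lf 0) f
    omega
  obtain ⟨q, hq, hqO, hqD⟩ := Nat.sSup_mem hSne hSb
  have hmax : ∀ q', (q' = p0 ∨ Ab p0 q') → nd q' (lf 0) ∈ O → D q' f ≤ D q f := by
    intro q' h1 h2
    rw [hqD]
    exact le_csSup hSb ⟨q', h1, h2, rfl⟩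
  have hqnu : nu q = nu p0 := by
    rcases hq with rfl | hq
    · rfl
    · exact nu_of_Ab hq
  have hAb : ∀ {x : W}, Ab q x → Ab p0 x := by
    intro x hx
    rcases hq with rfl | hq
    · exact hx
    · exact Ab_trans hq hx
  refine ⟨q, ?_, ?_, hOR hqO, ?_⟩
  · rw [hqnu, hp0nu]; exact hp1N
  · rw [hqnu, hp0nu]
    refine le_trans hp0L ?_
    rcases hq with rfl | hq
    · exact le_refl _
    · exact kap_of_Ab hq
  · intro v hv
    by_contra hvU
    obtain ⟨N1, hN1, hdis⟩ := U_compl_nhd v (sub f q) hvU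
    have hB : B q N1 ∅ (fun _ => f) ∈ nhd (nd q v) := ⟨N1, hN1, ∅, small_empty, _, rfl⟩
    obtain ⟨t, htB, htO⟩ := mem_closure_W_iff.1 (hR.2 hv) _ hB
    rcases htB with ⟨s, hs, rfl⟩ | ⟨s, hs, _, ht⟩
    · obtain ⟨s', hs', _, hO'⟩ := exists_exit hO (isOpen_nhd hN1) small_empty htO hs
      have h1 := hmax (nd q s') (Or.inr (hAb (Ab.base _))) hO'
      rw [D_nd_not_mem (hdis s' hs')] at h1
      omega
    · have hAbt : Ab (nd q s) t := E_sub_Ab ht
      have key : ∀ r u : W, t = nd r u → (r = nd q s ∨ Ab (nd q s) r) → False := by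
        intro r u htr hr
        rw [htr] at htO
        obtain ⟨s', _, _, hO'⟩ := exists_exit hO isOpen_univ small_empty htO (Set.mem_univ _)
        have hqr : Ab q r := by
          rcases hr with rfl | hr
          · exact Ab.base _
          · exact Ab_trans (Ab.base _) hr
        have h1 := hmax (nd r s') (Or.inr (hAb (Ab.step _ _ hqr))) hO'
        have h2 : D (nd q s) f ≤ D r f := by
          rcases hr with rfl | hr
          · exact le_refl _
          · exact D_of_Ab f hr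
        have h3 := D_le_nd r s' f
        rw [D_nd_not_mem (hdis s hs)] at h2
        omega
      cases hAbt with
      | base u => exact key _ u rfl (Or.inl rfl)
      | step r u hr => exact key r u rfl (Or.inr hr)

end Pool.Agent.Lib.MP_12964e_gt.h39c
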