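import Pool.Agent.Lib.MP_12964e_gt.h39c.Fat

set_option autoImplicit false

namespace Pool.Agent.Lib.MP_12964e_gt.h39c

open W

/-- concatenation -/
def app : W → W → W
  | lf _, s => s
  | nd p w, s => nd p (app w s)

theorem app_assoc (a b c : W) : app (app a b) c = app a (app b c) := by
  induction a with
  | lf n => rfl
  | nd p w _ ih => simp only [app, ih]

/-- finite initial segments of an infinite sequence of prefixes -/
def pre : (ℕ → W) → ℕ → W
  | _, 0 => lf 0
  | y, k + 1 => nd (y 0) (pre (fun n => y (n + 1)) k)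

theorem pre_succ (k : ℕ) : ∀ y : ℕ → W, pre y (k + 1) = app (pre y k) (nd (y k) (lf 0)) := by
  induction k with
  | zero => intro y; rfl
  | succ k ih =>
    intro y
    have h := ih (fun n => y (n + 1))
    calc pre y (k + 1 + 1) = nd (y 0) (pre (fun n => y (n + 1)) (k + 1)) := rfl
      _ = nd (y 0) (app (pre (fun n => y (n + 1)) k) (nd (y (k + 1)) (lf 0))) := by rw [h]
      _ = app (pre y (k + 1)) (nd (y (k + 1)) (lf 0)) := rfl

theorem app_pre_lf (k : ℕ) : ∀ y : ℕ → W, app (pre y k) (lf 0) = pre y k := by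
  induction k with
  | zero => intro y; rfl
  | succ k ih => intro y; simp only [pre, app, ih]

/-- all extensions of a finite sequence -/
def Cone (w : W) : Set W := {t | ∃ s, t = app w s}

theorem Cone_pre_anti (y : ℕ → W) {j k : ℕ} (h : j ≤ k) : Cone (pre y k) ⊆ Cone (pre y j) := by
  induction k, h using Nat.le_induction with
  | base => exact subset_rfl
  | succ k _ ih =>
    refine Set.Subset.trans ?_ ih
    rintro t ⟨s, rfl⟩
    rw [pre_succ, app_assoc]
    exact ⟨_, rfl⟩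

theorem pre_mem_Cone (y : ℕ → W) (k : ℕ) : pre y k ∈ Cone (pre y k) :=
  ⟨lf 0, (app_pre_lf k y).symm⟩

/-- the space: finite sequences and infinite sequences -/
def X : Type := W ⊕ (ℕ → W)

/-- the open set of the space given by an open set of finite sequences -/
def hat (G : Set W) : Set X := {x | Sum.elim (fun t => t ∈ G) (fun y => ∃ k, Cone (pre y k) ⊆ G) x}

/-- finite point -/
def fin (t : W) : X := Sum.inl t

/-- infinite point -/
def inf (y : ℕ → W) : X := Sum.inr y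

theorem fin_mem_hat {t : W} {G : Set W} : fin t ∈ hat G ↔ t ∈ G := Iff.rfl

theorem inf_mem_hat {y : ℕ → W} {G : Set W} : inf y ∈ hat G ↔ ∃ k, Cone (pre y k) ⊆ G := Iff.rfl

theorem X_cases (x : X) : (∃ t, x = fin t) ∨ ∃ y, x = inf y := by
  rcases x with t | y
  · exact Or.inl ⟨t, rfl⟩
  · exact Or.inr ⟨y, rfl⟩

theorem fin_ne_inf {t : W} {y : ℕ → W} : fin t ≠ inf y := fun h => by
  have h' : (Sum.inl t : W ⊕ (ℕ → W)) = Sum.inr y := h
  exact Sum.inl_ne_inr h'

theorem fin_inj {t t' : W} (h : fin t = fin t') : t = t' := Sum.inl_injective h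

theorem inf_inj {y y' : ℕ → W} (h : inf y = inf y') : y = y' := Sum.inr_injective h

theorem hat_mono {G G' : Set W} (h : G ⊆ G') : hat G ⊆ hat G' := by
  intro x hx
  rcases X_cases x with ⟨t, rfl⟩ | ⟨y, rfl⟩
  · exact h hx
  · obtain ⟨k, hk⟩ := inf_mem_hat.1 hx
    exact ⟨k, hk.trans h⟩

theorem hat_inter {G G' : Set W} : hat G ∩ hat G' ⊆ hat (G ∩ G') := by
  rintro x ⟨hx, hx'⟩
  rcases X_cases x with ⟨t, rfl⟩ | ⟨y, rfl⟩
  · exact ⟨hx, hx'⟩
  · obtain ⟨k, hk⟩ := inf_mem_hat.1 hx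
    obtain ⟨k', hk'⟩ := inf_mem_hat.1 hx'
    exact ⟨max k k', Set.subset_inter ((Cone_pre_anti y (le_max_left _ _)).trans hk)
      ((Cone_pre_anti y (le_max_right _ _)).trans hk')⟩

instance instTopX : TopologicalSpace X where
  IsOpen O := ∀ x ∈ O, ∃ G : Set W, IsOpen G ∧ x ∈ hat G ∧ hat G ⊆ O
  isOpen_univ := by
    intro x _
    refine ⟨Set.univ, isOpen_univ, ?_, Set.subset_univ _⟩
    rcases X_cases x with ⟨t, rfl⟩ | ⟨y, rfl⟩
    · exact fin_mem_hat.2 (Set.mem_univ t)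
    · exact ⟨0, Set.subset_univ _⟩
  isOpen_inter := by
    intro O O' hO hO' x hx
    obtain ⟨G, hG, hxG, hsub⟩ := hO x hx.1
    obtain ⟨G', hG', hxG', hsub'⟩ := hO' x hx.2
    exact ⟨G ∩ G', hG.inter hG', hat_inter ⟨hxG, hxG'⟩,
      Set.subset_inter ((hat_mono Set.inter_subset_left).trans hsub)
        ((hat_mono Set.inter_subset_right).trans hsub')⟩
  isOpen_sUnion := by
    intro S hS x hx
    obtain ⟨O, hO, hxO⟩ := hx
    obtain ⟨G, hG, hxG, hsub⟩ := hS O hO x hxO
    exact ⟨G, hG, hxG, hsub.trans (Set.subset_sUnion_of_mem hO)⟩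

theorem isOpen_X_iff {O : Set X} :
    IsOpen O ↔ ∀ x ∈ O, ∃ G : Set W, IsOpen G ∧ x ∈ hat G ∧ hat G ⊆ O := Iff.rfl

theorem isOpen_hat {G : Set W} (hG : IsOpen G) : IsOpen (hat G) :=
  isOpen_X_iff.2 (fun _ hx => ⟨G, hG, hx, subset_rfl⟩)

/-- trace on the finite points -/
def tr (O : Set X) : Set W := {t | fin t ∈ O}

theorem isOpen_tr {O : Set X} (hO : IsOpen O) : IsOpen (tr O) := by
  rw [isOpen_iff_mem_nhds]
  intro t ht
  obtain ⟨G, hG, htG, hsub⟩ := isOpen_X_iff.1 hO (fin t) ht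
  exact Filter.mem_of_superset (hG.mem_nhds (fin_mem_hat.1 htG)) (fun t' ht' => hsub (fin_mem_hat.2 ht'))

theorem exists_fin_mem {O : Set X} (hO : IsOpen O) (hne : O.Nonempty) : ∃ t, fin t ∈ O := by
  obtain ⟨x, hx⟩ := hne
  rcases X_cases x with ⟨t, rfl⟩ | ⟨y, rfl⟩
  · exact ⟨t, hx⟩
  · obtain ⟨G, _, hyG, hsub⟩ := isOpen_X_iff.1 hO _ hx
    obtain ⟨k, hk⟩ := inf_mem_hat.1 hyG
    exact ⟨pre y k, hsub (fin_mem_hat.2 (hk (pre_mem_Cone y k)))⟩

theorem tr_closure {O : Set X} (hO : IsOpen O) : tr (closure O) = closure (tr O) := by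
  apply Set.Subset.antisymm
  · intro t ht
    rw [mem_closure_W_iff]
    intro N hN
    have h1 : fin t ∈ hat N := fin_mem_hat.2 (nhd_mem hN)
    have h2 := mem_closure_iff.1 (show fin t ∈ closure O from ht) _ (isOpen_hat (isOpen_nhd hN)) h1
    obtain ⟨t', ht'⟩ := exists_fin_mem ((isOpen_hat (isOpen_nhd hN)).inter hO) h2
    exact ⟨t', ht'.1, ht'.2⟩
  · intro t ht
    change fin t ∈ closure O
    rw [mem_closure_iff]
    intro O' hO' htO'
    obtain ⟨t', h1, h2⟩ := mem_closure_iff.1 ht _ (isOpen_tr hO') htO'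
    exact ⟨fin t', h1, h2⟩

theorem RC_tr_closure {O : Set X} (hO : IsOpen O) : RC (tr (closure O)) := by
  rw [tr_closure hO]
  exact ⟨isClosed_closure, closure_mono (interior_maximal subset_closure (isOpen_tr hO))⟩

/-- an infinite point all of whose late finite neighbours are outside the closure is outside the closure -/
theorem inf_not_mem_closure {O : Set X} (hO : IsOpen O) {y : ℕ → W} {k : ℕ}
    (h : ∀ t ∈ Cone (pre y k), t ∉ tr (closure O)) : inf y ∉ closure O := by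
  intro hy
  have hG : IsOpen (tr (closure O))ᶜ := by
    rw [isOpen_compl_iff, tr_closure hO]
    exact isClosed_closure
  have h1 : inf y ∈ hat (tr (closure O))ᶜ := ⟨k, h⟩
  have h2 := mem_closure_iff.1 hy _ (isOpen_hat hG) h1
  obtain ⟨t, ht1, ht2⟩ := exists_fin_mem ((isOpen_hat hG).inter hO) h2
  exact (fin_mem_hat.1 ht1) (subset_closure ht2)

theorem fin_pre_mem {C : Set X} (hC : IsClosed C) {y : ℕ → W} (h : ∀ k, fin (pre y k) ∈ C) :
    inf y ∈ C := by
  by_contra hy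
  obtain ⟨G, _, hyG, hsub⟩ := isOpen_X_iff.1 hC.isOpen_compl _ hy
  obtain ⟨k, hk⟩ := inf_mem_hat.1 hyG
  exact hsub (fin_mem_hat.2 (hk (pre_mem_Cone y k))) (h k)

end Pool.Agent.Lib.MP_12964e_gt.h39c
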