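import Pool.Agent.Lib.MP_12964e_gt.h39c.Fat
import Pool.Agent.Lib.MP_12964e_gt.h39c.Space

section

set_option autoImplicit false

namespace Pool.Agent.Lib.MP_12964e_gt.h39c

open W TopologicalSpace

/-- cylinder sets of parameters -/
def cyl (F : Finset W) (h : Par) : Set Par := {g | ∀ z ∈ F, g z = h z}

theorem isOpen_cyl (F : Finset W) (h : Par) : IsOpen (cyl F h) := by
  have : cyl F h = ⋂ z ∈ F, (fun g : Par => g z) ⁻¹' {h z} := by
    ext g
    simp [cyl]
  rw [this]
  exact isOpen_biInter_finset (fun z _ => (isOpen_discrete _).preimage (continuous_apply z))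

theorem mem_cyl_self (F : Finset W) (h : Par) : h ∈ cyl F h := fun _ _ => rfl

theorem exists_cyl_sub {V : Set Par} (hV : IsOpen V) {h : Par} (hh : h ∈ V) :
    ∃ F : Finset W, cyl F h ⊆ V := by
  obtain ⟨F, u, hu, hsub⟩ := isOpen_pi_iff.1 hV h hh
  refine ⟨F, fun g hg => hsub ?_⟩
  intro z hz
  rw [hg z hz]
  exact (hu z hz).2

/-- a nonmeagre set is everywhere nonmeagre in some cylinder -/
theorem exists_cyl_everywhere {M : Set Par} (hM : ¬ IsMeagre M) :
    ∃ (F : Finset W) (h : Par), ∀ V : Set Par, IsOpen V → V.Nonempty → V ⊆ cyl F h →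
      ¬ IsMeagre (M ∩ V) := by
  classical
  set 𝒟 : Set Par := ⋃ b ∈ {b | b ∈ countableBasis Par ∧ IsMeagre (M ∩ b)}, b with h𝒟
  have hcount : ({b | b ∈ countableBasis Par ∧ IsMeagre (M ∩ b)} : Set (Set Par)).Countable :=
    (countable_countableBasis Par).mono (fun b hb => hb.1)
  have hDo : IsOpen 𝒟 := isOpen_biUnion (fun b hb => isOpen_of_mem_countableBasis hb.1)
  have hMD : IsMeagre (M ∩ 𝒟) := by
    have h1 : M ∩ 𝒟 ⊆ ⋃ b ∈ {b | b ∈ countableBasis Par ∧ IsMeagre (M ∩ b)}, (M ∩ b) := by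
      rintro g ⟨hg, hgD⟩
      obtain ⟨b, hb, hgb⟩ := Set.mem_iUnion₂.1 hgD
      exact Set.mem_iUnion₂.2 ⟨b, hb, hg, hgb⟩
    exact (isMeagre_biUnion hcount (fun b hb => hb.2)).mono h1
  have hnd : ¬ Dense 𝒟 := by
    intro hd
    have h2 : IsMeagre 𝒟ᶜ := by
      rw [IsMeagre, compl_compl]
      exact residual_of_dense_open hDo hd
    apply hM
    refine (hMD.union h2).mono ?_
    intro g hg
    by_cases h : g ∈ 𝒟
    · exact Or.inl ⟨hg, h⟩
    · exact Or.inr h
  rw [dense_iff_inter_open] at hnd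
  push Not at hnd
  obtain ⟨V0, hV0, ⟨h, hh⟩, hdis⟩ := hnd
  obtain ⟨F, hF⟩ := exists_cyl_sub hV0 hh
  refine ⟨F, h, ?_⟩
  intro V hV hVne hVsub hmeag
  obtain ⟨g, hg⟩ := hVne
  obtain ⟨b, hb, hgb, hbV⟩ := (isBasis_countableBasis Par).exists_subset_of_mem_open hg hV
  have h3 : g ∈ 𝒟 :=
    Set.mem_iUnion₂.2 ⟨b, ⟨hb, IsMeagre.mono (t := M ∩ b) (s := M ∩ V)
      (Set.inter_subset_inter_right M hbV) hmeag⟩, hgb⟩
  have h4 : g ∈ V0 ∩ 𝒟 := ⟨hF (hVsub hg), h3⟩
  rw [Set.eq_empty_iff_forall_notMem] at hdis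
  exact hdis g h4

theorem continuous_sub (p : W) : Continuous (fun g : Par => sub g p) :=
  continuous_pi (fun z => continuous_apply (nd p z))

theorem isOpenMap_sub (p : W) : IsOpenMap (fun g : Par => sub g p) := by
  classical
  intro V hV
  rw [isOpen_iff_mem_nhds]
  rintro _ ⟨g, hg, rfl⟩
  obtain ⟨F, hF⟩ := exists_cyl_sub hV hg
  have hinj : Function.Injective (nd p) := fun a b h => by injection h
  refine Filter.mem_of_superset ((isOpen_cyl (F.preimage (nd p) hinj.injOn) (sub g p)).mem_nhds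
    (mem_cyl_self _ _)) ?_
  intro h hh
  refine ⟨fun x => if hx : ∃ z, x = nd p z then h hx.choose else g x, ?_, ?_⟩
  · apply hF
    intro x hx
    by_cases h1 : ∃ z, x = nd p z
    · simp only [dif_pos h1]
      have h2 := h1.choose_spec
      have h3 : h1.choose ∈ F.preimage (nd p) hinj.injOn := by
        rw [Finset.mem_preimage, ← h2]
        exact hx
      rw [hh _ h3]
      simp only [sub]
      rw [← h2]
    · simp only [dif_neg h1]
  · funext z
    have h1 : ∃ z', nd p z = nd p z' := ⟨z, rfl⟩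
    simp only [sub, dif_pos h1]
    have h2 := h1.choose_spec
    rw [hinj h2.symm]

/-- truncations of a prefix -/
def trunc : W → List W
  | lf n => [lf n]
  | nd p s => nd p s :: trunc p

theorem nu_trunc {p q : W} (h : q ∈ trunc p) : nu q = nu p := by
  induction p with
  | lf n =>
    simp only [trunc, List.mem_singleton] at h
    rw [h]
  | nd p s ihp _ =>
    simp only [trunc, List.mem_cons] at h
    rcases h with rfl | h
    · rfl
    · exact ihp h

/-- bound for the indices of the entries of a prefix -/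
def mx : W → ℕ
  | lf _ => 0
  | nd p s => max (mx p) (nu s + 1)

theorem kap_le_D {g : Par} {m : ℕ} (p : W) (h : ∀ q ∈ trunc p, m ≤ g (nd q (lf 0))) (hm : mx p ≤ m) :
    kap p ≤ D p g := by
  induction p with
  | lf n => exact le_refl 0
  | nd p s ihp _ =>
    have h1 : kap p ≤ D p g := by
      apply ihp
      · intro q hq
        exact h q (by simp only [trunc, List.mem_cons]; exact Or.inr hq)
      · simp only [mx] at hm
        omega
    by_cases hs : s.leaf
    · have : kap (nd p s) = kap p := by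
        classical
        simp only [kap]
        rw [if_pos hs, add_zero]
      rw [this]
      exact le_trans h1 (D_le_nd _ _ _)
    · have hs' : s ∉ U (sub g p) := by
        rintro (h2 | h2)
        · exact hs h2
        · have h3 : m ≤ g (nd p (lf 0)) := by
            apply h p
            simp only [trunc, List.mem_cons]
            right
            cases p <;> simp [trunc]
          simp only [mx] at hm
          have h4 : sub g p (lf 0) = g (nd p (lf 0)) := rfl
          rw [h4] at h2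
          omega
      rw [kap_nd_not_leaf hs, D_nd_not_mem hs']
      omega

end Pool.Agent.Lib.MP_12964e_gt.h39c
end

section

set_option autoImplicit false

namespace Pool.Agent.Lib.MP_12964e_gt.h39c

open W

/-- root families -/
def FamR (S : Set W) : Prop :=
  (∀ n, lf n ∈ S) ∧ (∀ p s s', nd p s ∈ S → nd p s' ∈ S) ∧ (∀ p s, nd p s ∈ S → p ∈ S)

/-- the closure-preserving families of closed sets -/
def Fam : W → Set (Set W)
  | lf _ => {S | FamR S}
  | nd p0 s0 => {S | (∀ n, lf n ∉ S) ∧ sec S p0 ∈ Fam s0 ∧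
      ∀ p, p ≠ p0 → (∀ s, nd p s ∉ S) ∨ (FamR (sec S p) ∧ p ∈ S)}

theorem FamR_down {S : Set W} (hS : FamR S) {a x : W} (h : Ab a x) (hx : x ∈ S) : a ∈ S := by
  induction h with
  | base u => exact hS.2.2 _ _ hx
  | step q u _ ih => exact ih (hS.2.2 _ _ hx)

theorem FamR_closed {S : Set W} (hS : FamR S) {t : W} (ht : t ∉ S) :
    ∃ N ∈ nhd t, ∀ x ∈ N, x ∉ S := by
  cases t with
  | lf n => exact (ht (hS.1 n)).elim
  | nd p s =>
    obtain ⟨W0, hW0⟩ := nhd_nonempty s
    refine ⟨B p W0 ∅ 0, ⟨W0, hW0, ∅, small_empty, 0, rfl⟩, ?_⟩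
    rintro x (⟨s', _, rfl⟩ | ⟨s', _, _, hx⟩) hxS
    · exact ht (hS.2.1 _ _ _ hxS)
    · exact ht (hS.2.1 _ _ _ (FamR_down hS (E_sub_Ab hx) hxS))

theorem Fam_above {p0 s0 : W} {S : Set W} (hS : S ∈ Fam (nd p0 s0)) (p : W) :
    ∀ s, nd p s ∈ S → p = p0 ∨ Ab p0 p := by
  induction p with
  | lf n =>
    intro s hs
    by_cases h : lf n = p0
    · exact Or.inl h
    · rcases hS.2.2 _ h with h1 | h1
      · exact (h1 s hs).elim
      · exact (hS.1 n h1.2).elim
  | nd q u ihq _ =>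
    intro s hs
    by_cases h : nd q u = p0
    · exact Or.inl h
    · rcases hS.2.2 _ h with h1 | h1
      · exact (h1 s hs).elim
      · rcases ihq u h1.2 with rfl | h2
        · exact Or.inr (Ab.base _)
        · exact Or.inr (Ab.step _ _ h2)

theorem Fam_down {p0 s0 : W} {S : Set W} (hS : S ∈ Fam (nd p0 s0)) {a x : W} (ha : a ≠ p0)
    (ha' : ¬ Ab a p0) (h : Ab a x) (hx : x ∈ S) : a ∈ S := by
  induction h with
  | base u =>
    rcases hS.2.2 _ ha with h1 | h1
    · exact (h1 u hx).elim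
    · exact h1.2
  | step q u hq ih =>
    have hqp : q ≠ p0 := by
      rintro rfl
      exact ha' hq
    rcases hS.2.2 _ hqp with h1 | h1
    · exact (h1 u hx).elim
    · exact ih h1.2

theorem small_below (p p0 : W) : Small {s | nd p s = p0 ∨ Ab (nd p s) p0} := by
  by_cases h : ∃ s, nd p s = p0 ∨ Ab (nd p s) p0
  · obtain ⟨s1, hs1⟩ := h
    refine small_mono ?_ (small_singleton s1)
    intro s hs
    have key : ∀ s', (nd p s' = p0 ∨ Ab (nd p s') p0) → Ab (nd p s') (nd p0 (lf 0)) := by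
      rintro s' (rfl | h')
      · exact Ab.base _
      · exact Ab.step _ _ h'
    exact Ab_nd_inj (key s hs) (key s1 hs1)
  · refine small_mono ?_ small_empty
    intro s hs
    exact h ⟨s, hs⟩

theorem Fam_closed (w : W) : ∀ {S : Set W}, S ∈ Fam w → ∀ t, t ∉ S →
    ∃ N ∈ nhd t, ∀ x ∈ N, x ∉ S := by
  induction w with
  | lf n => intro S hS t ht; exact FamR_closed hS ht
  | nd p0 s0 _ ih =>
    intro S hS t ht
    cases t with
    | lf n =>
      refine ⟨U (fun _ => nu p0 + 1), ⟨_, rfl⟩, ?_⟩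
      intro x hx hxS
      cases x with
      | lf m => exact hS.1 m hxS
      | nd p s =>
        rw [nd_mem_U] at hx
        have h1 : nu p = nu p0 := by
          rcases Fam_above hS p s hxS with rfl | h1
          · rfl
          · exact nu_of_Ab h1
        omega
    | nd p s =>
      by_cases hp : p = p0
      · subst hp
        obtain ⟨N1, hN1, hdis⟩ := ih hS.2.1 s ht
        refine ⟨B p N1 ∅ 0, ⟨N1, hN1, ∅, small_empty, 0, rfl⟩, ?_⟩
        rintro x (⟨s', hs', rfl⟩ | ⟨s', hs', _, hx⟩) hxS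
        · exact hdis s' hs' hxS
        · refine hdis s' hs' (Fam_down hS (nd_ne_left p s') ?_ (E_sub_Ab hx) hxS)
          intro hc
          exact Ab_irrefl (Ab_trans hc (Ab.base s'))
      · rcases hS.2.2 p hp with h1 | h1
        · obtain ⟨W0, hW0⟩ := nhd_nonempty s
          refine ⟨B p W0 {s | nd p s = p0 ∨ Ab (nd p s) p0} 0,
            ⟨W0, hW0, _, small_below p p0, 0, rfl⟩, ?_⟩
          rintro x (⟨s', hs', rfl⟩ | ⟨s', hs', hsJ, hx⟩) hxS
          · exact h1 s' hxS
          · have hsJ' : ¬ (nd p s' = p0 ∨ Ab (nd p s') p0) := hsJ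
            push Not at hsJ'
            exact h1 s' (Fam_down hS hsJ'.1 hsJ'.2 (E_sub_Ab hx) hxS)
        · obtain ⟨N1, hN1, hdis⟩ := FamR_closed h1.1 (t := s) ht
          refine ⟨B p N1 ∅ 0, ⟨N1, hN1, ∅, small_empty, 0, rfl⟩, ?_⟩
          have hab : Ab p0 p := by
            rcases Fam_above hS p (lf 0) (h1.1.1 0) with h2 | h2
            · exact (hp h2).elim
            · exact h2
          rintro x (⟨s', hs', rfl⟩ | ⟨s', hs', _, hx⟩) hxS
          · exact hdis s' hs' hxS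
          · refine hdis s' hs' (Fam_down hS ?_ ?_ (E_sub_Ab hx) hxS)
            · intro hc
              rw [← hc] at hab
              exact Ab_irrefl (Ab_trans (Ab.base s') hab)
            · intro hc
              exact Ab_irrefl (Ab_trans (Ab_trans (Ab.base s') hc) hab)

theorem Fam_isClosed {w : W} {S : Set W} (hS : S ∈ Fam w) : IsClosed S := by
  rw [← isOpen_compl_iff, isOpen_W_iff]
  intro t ht
  obtain ⟨N, hN, h⟩ := Fam_closed w hS t ht
  exact ⟨N, hN, h⟩

/-- length -/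
def len : W → ℕ
  | lf _ => 0
  | nd _ s => len s + 1

theorem len_pre (k : ℕ) : ∀ y : ℕ → W, len (pre y k) = k := by
  induction k with
  | zero => intro y; rfl
  | succ k ih => intro y; simp only [pre, len, ih]

/-- long cones are inside or outside -/
theorem Fam_full (w : W) : ∀ {S : Set W}, S ∈ Fam w → ∀ v, len v = len w + 1 →
    ∀ s s', app v s ∈ S → app v s' ∈ S := by
  induction w with
  | lf n =>
    intro S hS v hv s s' h
    cases v with
    | lf m => simp only [len] at hv; omega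
    | nd p v' =>
      cases v' with
      | lf m => exact hS.2.1 _ _ _ h
      | nd q u => simp only [len] at hv; omega
  | nd p0 s0 _ ih =>
    intro S hS v hv s s' h
    cases v with
    | lf m => simp only [len] at hv; omega
    | nd p v' =>
      have hv' : len v' = len s0 + 1 := by simp only [len] at hv; omega
      by_cases hp : p = p0
      · subst hp
        exact ih hS.2.1 v' hv' s s' h
      · rcases hS.2.2 p hp with h1 | h1
        · exact (h1 _ h).elim
        · cases v' with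
          | lf m => simp only [len] at hv'; omega
          | nd q u => exact h1.1.2.1 q (app u s) (app u s') h

/-- unions -/
theorem Fam_sUnion (w : W) : ∀ {T : Set (Set W)}, T ⊆ Fam w → T.Nonempty → ⋃₀ T ∈ Fam w := by
  have keyR : ∀ {T : Set (Set W)}, (∀ S ∈ T, FamR S) → T.Nonempty → FamR (⋃₀ T) := by
    rintro T hT ⟨S, hS⟩
    refine ⟨fun n => ⟨S, hS, (hT S hS).1 n⟩, ?_, ?_⟩
    · rintro p s s' ⟨S', hS', h⟩
      exact ⟨S', hS', (hT S' hS').2.1 _ _ _ h⟩
    · rintro p s ⟨S', hS', h⟩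
      exact ⟨S', hS', (hT S' hS').2.2 _ _ h⟩
  induction w with
  | lf n => intro T hT hne; exact keyR (fun S hS => hT hS) hne
  | nd p0 s0 _ ih =>
    intro T hT hne
    refine ⟨?_, ?_, ?_⟩
    · rintro n ⟨S, hS, h⟩
      exact (hT hS).1 n h
    · have h1 : sec (⋃₀ T) p0 = ⋃₀ ((fun S => sec S p0) '' T) := by
        ext s
        constructor
        · rintro ⟨S, hS, h⟩
          exact ⟨_, ⟨S, hS, rfl⟩, h⟩
        · rintro ⟨_, ⟨S, hS, rfl⟩, h⟩
          exact ⟨S, hS, h⟩
      rw [h1]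
      apply ih
      · rintro _ ⟨S, hS, rfl⟩
        exact (hT hS).2.1
      · exact hne.image _
    · intro p hp
      by_cases h : ∃ s, nd p s ∈ ⋃₀ T
      · right
        obtain ⟨s, S, hS, hs⟩ := h
        have hgood : ∀ S' ∈ T, (∃ s', nd p s' ∈ S') → FamR (sec S' p) ∧ p ∈ S' := by
          rintro S' hS' ⟨s', hs'⟩
          rcases (hT hS').2.2 p hp with h1 | h1
          · exact (h1 s' hs').elim
          · exact h1
        refine ⟨?_, ⟨S, hS, (hgood S hS ⟨s, hs⟩).2⟩⟩
        have h2 : sec (⋃₀ T) p = ⋃₀ ((fun S => sec S p) '' {S' | S' ∈ T ∧ ∃ s', nd p s' ∈ S'}) := by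
          ext u
          constructor
          · rintro ⟨S', hS', h'⟩
            exact ⟨_, ⟨S', ⟨hS', u, h'⟩, rfl⟩, h'⟩
          · rintro ⟨_, ⟨S', hS', rfl⟩, h'⟩
            exact ⟨S', hS'.1, h'⟩
        rw [h2]
        apply keyR
        · rintro _ ⟨S', hS', rfl⟩
          exact (hgood S' hS'.1 hS'.2).1
        · exact ⟨_, S, ⟨hS, s, hs⟩, rfl⟩
      · left
        intro s hs
        exact h ⟨s, hs⟩

end Pool.Agent.Lib.MP_12964e_gt.h39c
end

section

set_option autoImplicit false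

namespace Pool.Agent.Lib.MP_12964e_gt.h39c

open W

/-- the neighbourhood of the root that does not see the last coordinate -/
def S1 (f : Par) : Set W := {x | x.leaf ∨ ∃ p s, x = nd p s ∧ f (lf 0) + 1 + D p f ≤ nu p}

theorem nd_mem_S1 {f : Par} {p s : W} : nd p s ∈ S1 f ↔ f (lf 0) + 1 + D p f ≤ nu p := by
  constructor
  · rintro (h | ⟨q, u, h, h'⟩)
    · exact h.elim
    · injection h with h1 h2
      rw [h1]
      exact h'
  · intro h
    exact Or.inr ⟨p, s, rfl, h⟩

theorem FamR_S1 (f : Par) : FamR (S1 f) := by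
  refine ⟨fun n => Or.inl trivial, ?_, ?_⟩
  · intro p s s' h
    rw [nd_mem_S1] at h ⊢
    exact h
  · intro p s h
    rw [nd_mem_S1] at h
    cases p with
    | lf n => exact Or.inl trivial
    | nd q u =>
      rw [nd_mem_S1]
      exact le_trans (Nat.add_le_add_left (D_le_nd q u f) _) h

theorem S1_sub_U (f : Par) : S1 f ⊆ U f := by
  rintro x (h | ⟨p, s, rfl, h⟩)
  · exact Or.inl h
  · rw [nd_mem_U]
    have := D_nd_le p s f
    omega

theorem U_sub_S1 (f : Par) : U (f + 1) ⊆ S1 f := by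
  intro x hx
  cases x with
  | lf n => exact Or.inl trivial
  | nd p s =>
    rw [nd_mem_U] at hx
    rw [nd_mem_S1]
    have h1 : D p f ≤ D p (f + 1) := D_mono p (fun z => Nat.le_succ _)
    have h2 : D p (f + 1) ≤ D (nd p s) (f + 1) := D_le_nd _ _ _
    have h3 : (f + 1) (lf 0) = f (lf 0) + 1 := rfl
    omega

/-- the cells built from the sets `S1` -/
inductive EE1 (h : Par) (p : W) : W → Prop
  | base (u : W) : u ∈ S1 (sub h p) → EE1 h p (nd p u)
  | step (q u : W) : EE1 h p q → u ∈ S1 (sub h q) → EE1 h p (nd q u)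

theorem EE1_sub_E {h : Par} {p x : W} (hx : EE1 h p x) : x ∈ E h p := by
  induction hx with
  | base u hu => exact EE.base u (S1_sub_U _ hu)
  | step q u _ hu ih => exact EE.step q u ih (S1_sub_U _ hu)

theorem E_sub_EE1 {h : Par} {p x : W} (hx : x ∈ E (h + 1) p) : EE1 h p x := by
  induction hx with
  | base u hu => exact EE1.base u (U_sub_S1 _ hu)
  | step q u _ hu ih => exact EE1.step q u ih (U_sub_S1 _ hu)

theorem EE1_nd {h : Par} {a p u : W} :
    EE1 h a (nd p u) ↔ (a = p ∨ EE1 h a p) ∧ u ∈ S1 (sub h p) := by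
  constructor
  · intro hx
    cases hx with
    | base _ hu => exact ⟨Or.inl rfl, hu⟩
    | step _ _ hq hu => exact ⟨Or.inr hq, hu⟩
  · rintro ⟨rfl | hq, hu⟩
    · exact EE1.base u hu
    · exact EE1.step p u hq hu

theorem EE1_Ab {h : Par} {p x : W} (hx : EE1 h p x) : Ab p x := E_sub_Ab (EE1_sub_E hx)

/-- smallness is local -/
theorem small_local {G A : Set W} (hA : A ⊆ G)
    (h : ∀ v ∈ G, ∃ N ∈ nhd v, ∃ J, Small J ∧ N ∩ A ⊆ J) : Small A := by
  intro f p
  by_cases hne : (E f p ∩ G).Nonempty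
  · obtain ⟨v, hv1, hv2⟩ := hne
    obtain ⟨N, hN, J, hJ, hsub⟩ := h v hv2
    obtain ⟨f', p', h1, h2⟩ := exists_E_avoid (G := E f p ∩ N)
      ((isOpen_E f p).inter (isOpen_nhd hN)) ⟨v, hv1, nhd_mem hN⟩ hJ
    exact ⟨f', p', fun x hx => (h1 hx).1, fun x hx hxA => h2 x hx (hsub ⟨(h1 hx).2, hxA⟩)⟩
  · refine ⟨f, p, subset_rfl, ?_⟩
    intro x hx hxA
    exact hne ⟨x, hx, hA hxA⟩

/-- the key lemma: the families are rich enough -/
theorem exists_Fam {K : Set W}
    (hK : ∀ G : Set W, IsOpen G → K ⊆ G → ∃ S, FamR S ∧ K ⊆ interior S ∧ S ⊆ G) (w : W) :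
    ∀ G : Set W, IsOpen G → (∀ κ ∈ K, app w κ ∈ G) →
      ∃ S ∈ Fam w, (∀ κ ∈ K, app w κ ∈ interior S) ∧ S ⊆ G := by
  classical
  induction w with
  | lf n =>
    intro G hG h
    obtain ⟨S, hS, h1, h2⟩ := hK G hG h
    exact ⟨S, hS, h1, h2⟩
  | nd p0 s0 _ ih =>
    intro G hG h
    obtain ⟨S0, hS0, hint, hsub⟩ := ih (sec G p0) (isOpen_sec hG p0) h
    set J : Set W := {s | s ∈ sec G p0 ∧ ¬ ∃ f : Par, E f (nd p0 s) ⊆ G} with hJdef
    have hJ : Small J := by
      refine small_local (G := sec G p0) (fun s hs => hs.1) ?_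
      intro v hv
      obtain ⟨N, ⟨W0, hW0, J0, hJ0, g, rfl⟩, hN⟩ := isOpen_W_iff.1 hG (nd p0 v) hv
      refine ⟨W0, hW0, J0, hJ0, ?_⟩
      rintro s ⟨hs1, hs2⟩
      by_contra hsJ
      exact hs2.2 ⟨g s, fun x hx => hN (Or.inr ⟨s, hs1, hsJ, hx⟩)⟩
    have hch : ∀ s, ∃ g : Par, s ∈ sec G p0 → s ∉ J → E g (nd p0 s) ⊆ G := by
      intro s
      by_cases hs : s ∈ sec G p0 ∧ s ∉ J
      · have : ∃ f : Par, E f (nd p0 s) ⊆ G := by
          by_contra hc
          exact hs.2 ⟨hs.1, hc⟩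
        obtain ⟨g, hg⟩ := this
        exact ⟨g, fun _ _ => hg⟩
      · exact ⟨0, fun h1 h2 => (hs ⟨h1, h2⟩).elim⟩
    choose g hg using hch
    set S : Set W := {x | (∃ s ∈ S0, x = nd p0 s) ∨ ∃ s ∈ S0, s ∉ J ∧ EE1 (g s) (nd p0 s) x} with hS
    have hSG : S ⊆ G := by
      rintro x (⟨s, hs, rfl⟩ | ⟨s, hs, hsJ, hx⟩)
      · exact hsub hs
      · exact hg s (hsub hs) hsJ (EE1_sub_E hx)
    have hsec : sec S p0 = S0 := by
      ext u
      constructor
      · rintro (⟨s, hs, hx⟩ | ⟨s, hs, hsJ, hx⟩)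
        · injection hx with _ h2
          rw [h2]
          exact hs
        · exfalso
          rcases (EE1_nd.1 hx).1 with h1 | h1
          · exact nd_ne_left _ _ h1
          · exact Ab_irrefl (Ab_trans (EE1_Ab h1) (Ab.base s))
      · intro hu
        exact Or.inl ⟨u, hu, rfl⟩
    have hFam : S ∈ Fam (nd p0 s0) := by
      refine ⟨?_, ?_, ?_⟩
      · rintro n (⟨s, _, hx⟩ | ⟨s, _, _, hx⟩)
        · cases hx
        · cases hx
      · rw [hsec]
        exact hS0
      · intro p hp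
        by_cases hne : ∃ u, nd p u ∈ S
        · right
          obtain ⟨u, hu⟩ := hne
          have hex : ∀ u, nd p u ∈ S → ∃ s ∈ S0, s ∉ J ∧ EE1 (g s) (nd p0 s) (nd p u) := by
            rintro u (⟨s, _, hx⟩ | hx)
            · injection hx with h1 _
              exact (hp h1).elim
            · exact hx
          obtain ⟨s1, hs1, hs1J, hx1⟩ := hex u hu
          have h1 := EE1_nd.1 hx1
          have hpS : p ∈ S := by
            rcases h1.1 with h2 | h2
            · exact Or.inl ⟨s1, hs1, h2.symm⟩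
            · exact Or.inr ⟨s1, hs1, hs1J, h2⟩
          have hsp : sec S p = S1 (sub (g s1) p) := by
            ext v
            constructor
            · intro hv
              obtain ⟨s2, hs2, hs2J, hx2⟩ := hex v hv
              have h3 := EE1_nd.1 hx2
              have hab1 : Ab (nd p0 s1) (nd p (lf 0)) := by
                rcases h1.1 with h4 | h4
                · rw [h4]; exact Ab.base _
                · exact Ab.step _ _ (EE1_Ab h4)
              have hab2 : Ab (nd p0 s2) (nd p (lf 0)) := by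
                rcases h3.1 with h4 | h4
                · rw [h4]; exact Ab.base _
                · exact Ab.step _ _ (EE1_Ab h4)
              have hss : s1 = s2 := Ab_nd_inj hab1 hab2
              rw [hss]
              exact h3.2
            · intro hv
              exact Or.inr ⟨s1, hs1, hs1J, EE1_nd.2 ⟨h1.1, hv⟩⟩
          rw [hsp]
          exact ⟨FamR_S1 _, hpS⟩
        · left
          intro u hu
          exact hne ⟨u, hu⟩
    refine ⟨S, hFam, ?_, hSG⟩
    intro κ hκ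
    obtain ⟨N, hN, hNsub⟩ := isOpen_W_iff.1 isOpen_interior (app s0 κ) (hint κ hκ)
    have hBn : B p0 N J (fun s => g s + 1) ∈ nhd (nd p0 (app s0 κ)) :=
      ⟨N, hN, J, hJ, _, rfl⟩
    have hBS : B p0 N J (fun s => g s + 1) ⊆ S := by
      rintro x (⟨s, hs, rfl⟩ | ⟨s, hs, hsJ, hx⟩)
      · exact Or.inl ⟨s, interior_subset (hNsub hs), rfl⟩
      · exact Or.inr ⟨s, interior_subset (hNsub hs), hsJ, E_sub_EE1 hx⟩
    exact interior_maximal hBS (isOpen_nhd hBn) (nhd_mem hBn)

theorem base_leaf (m : ℕ) (G : Set W) (hG : IsOpen G) (h : ({lf m} : Set W) ⊆ G) :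
    ∃ S, FamR S ∧ ({lf m} : Set W) ⊆ interior S ∧ S ⊆ G := by
  obtain ⟨N, ⟨f, rfl⟩, hN⟩ := isOpen_W_iff.1 hG (lf m) (h rfl)
  refine ⟨S1 f, FamR_S1 f, ?_, (S1_sub_U f).trans hN⟩
  intro x hx
  have hx : x = lf m := hx
  rw [hx]
  exact interior_maximal (U_sub_S1 f) (isOpen_U _) (lf_mem_U _ _)

theorem base_univ (G : Set W) (_ : IsOpen G) (h : (Set.univ : Set W) ⊆ G) :
    ∃ S, FamR S ∧ (Set.univ : Set W) ⊆ interior S ∧ S ⊆ G := by
  refine ⟨Set.univ, ⟨fun _ => trivial, fun _ _ _ _ => trivial, fun _ _ _ => trivial⟩, ?_, h⟩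
  rw [interior_univ]

theorem exists_label (t : W) : ∃ m, app t (lf m) = t := by
  induction t with
  | lf n => exact ⟨n, rfl⟩
  | nd p s _ ih =>
    obtain ⟨m, hm⟩ := ih
    exact ⟨m, by simp only [app, hm]⟩

/-- the closed subset of the space given by a member of the family of `w` -/
def F (w : W) (S : Set W) : Set X :=
  {x | Sum.elim (fun t => t ∈ S) (fun y => pre y (len w + 1) ∈ S) x}

theorem fin_mem_F {w t : W} {S : Set W} : fin t ∈ F w S ↔ t ∈ S := Iff.rfl

theorem inf_mem_F {w : W} {y : ℕ → W} {S : Set W} : inf y ∈ F w S ↔ pre y (len w + 1) ∈ S := Iff.rfl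

theorem cone_of_mem {w : W} {S : Set W} (hS : S ∈ Fam w) {y : ℕ → W}
    (h : pre y (len w + 1) ∈ S) : Cone (pre y (len w + 1)) ⊆ S := by
  rintro t ⟨s, rfl⟩
  refine Fam_full w hS _ (len_pre _ _) (lf 0) s ?_
  rw [app_pre_lf]
  exact h

theorem mem_of_cone {w : W} {S : Set W} (hS : S ∈ Fam w) {y : ℕ → W} {k : ℕ}
    (h : (Cone (pre y k) ∩ S).Nonempty) (hk : len w + 1 ≤ k) : pre y (len w + 1) ∈ S := by
  obtain ⟨t, ht, htS⟩ := h
  obtain ⟨s, rfl⟩ := Cone_pre_anti y hk ht
  have := Fam_full w hS _ (len_pre _ _) s (lf 0) htS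
  rw [app_pre_lf] at this
  exact this

theorem isClosed_F {w : W} {S : Set W} (hS : S ∈ Fam w) : IsClosed (F w S) := by
  have h : (F w S)ᶜ = hat Sᶜ := by
    ext x
    rcases X_cases x with ⟨t, rfl⟩ | ⟨y, rfl⟩
    · exact Iff.rfl
    · constructor
      · intro hx
        refine ⟨len w + 1, ?_⟩
        intro t ht htS
        exact hx (mem_of_cone hS ⟨t, ht, htS⟩ le_rfl)
      · rintro ⟨k, hk⟩ hx
        have h1 := cone_of_mem hS (inf_mem_F.1 hx)
        have h2 : pre y (max k (len w + 1)) ∈ Cone (pre y k) :=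
          Cone_pre_anti y (le_max_left _ _) (pre_mem_Cone y _)
        have h3 : pre y (max k (len w + 1)) ∈ Cone (pre y (len w + 1)) :=
          Cone_pre_anti y (le_max_right _ _) (pre_mem_Cone y _)
        exact hk h2 (h1 h3)
  rw [← isOpen_compl_iff, h]
  exact isOpen_hat (Fam_isClosed hS).isOpen_compl

theorem F_sUnion (w : W) (T : Set (Set W)) : F w (⋃₀ T) = ⋃₀ (F w '' T) := by
  ext x
  rcases X_cases x with ⟨t, rfl⟩ | ⟨y, rfl⟩
  · constructor
    · rintro ⟨S, hS, h⟩
      exact ⟨_, ⟨S, hS, rfl⟩, h⟩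
    · rintro ⟨_, ⟨S, hS, rfl⟩, h⟩
      exact ⟨S, hS, h⟩
  · constructor
    · rintro ⟨S, hS, h⟩
      exact ⟨_, ⟨S, hS, rfl⟩, h⟩
    · rintro ⟨_, ⟨S, hS, rfl⟩, h⟩
      exact ⟨S, hS, h⟩

/-- the pseudobase -/
def PP (n : ℕ) : Set (Set X) := {C | ∃ w : W, code w = n ∧ ∃ S ∈ Fam w, C = F w S}

theorem PP_closed (n : ℕ) : ∀ C ∈ PP n, IsClosed C := by
  rintro C ⟨w, _, S, hS, rfl⟩
  exact isClosed_F hS

theorem PP_sUnion_closed (n : ℕ) : ∀ Q ⊆ PP n, IsClosed (⋃₀ Q) := by
  intro Q hQ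
  by_cases hne : Q.Nonempty
  · obtain ⟨C0, hC0⟩ := hne
    obtain ⟨w, hw, S0, hS0, rfl⟩ := hQ hC0
    have h1 : ⋃₀ Q = F w (⋃₀ {S | S ∈ Fam w ∧ F w S ∈ Q}) := by
      rw [F_sUnion]
      congr 1
      ext C
      constructor
      · intro hC
        obtain ⟨w', hw', S, hS, rfl⟩ := hQ hC
        have : w' = w := code_injective (hw'.trans hw.symm)
        subst this
        exact ⟨S, ⟨hS, hC⟩, rfl⟩
      · rintro ⟨S, hS, rfl⟩
        exact hS.2
    rw [h1]
    exact isClosed_F (Fam_sUnion w (fun S hS => hS.1) ⟨S0, hS0, hC0⟩)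
  · rw [Set.not_nonempty_iff_eq_empty.1 hne, Set.sUnion_empty]
    exact isClosed_empty

theorem PP_cp (n : ℕ) : ∀ Q ⊆ PP n, closure (⋃₀ Q) = ⋃₀ (closure '' Q) := by
  intro Q hQ
  have h1 : closure '' Q = Q := by
    ext C
    constructor
    · rintro ⟨C', hC', rfl⟩
      rw [(PP_closed n C' (hQ hC')).closure_eq]
      exact hC'
    · intro hC
      exact ⟨C, hC, (PP_closed n C (hQ hC)).closure_eq⟩
  rw [h1, (PP_sUnion_closed n Q hQ).closure_eq]

theorem hat_interior_sub {w : W} {S : Set W} (hS : S ∈ Fam w) : hat (interior S) ⊆ F w S := by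
  intro x hx
  rcases X_cases x with ⟨t, rfl⟩ | ⟨y, rfl⟩
  · exact fin_mem_F.2 (interior_subset (fin_mem_hat.1 hx))
  · obtain ⟨k, hk⟩ := inf_mem_hat.1 hx
    refine mem_of_cone hS (k := max k (len w + 1)) ?_ (le_max_right _ _)
    exact ⟨_, pre_mem_Cone y _, interior_subset (hk (Cone_pre_anti y (le_max_left _ _) (pre_mem_Cone y _)))⟩

theorem F_sub_hat {w : W} {S G : Set W} (hS : S ∈ Fam w) (h : S ⊆ G) : F w S ⊆ hat G := by
  intro x hx
  rcases X_cases x with ⟨t, rfl⟩ | ⟨y, rfl⟩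
  · exact h hx
  · exact ⟨_, (cone_of_mem hS (inf_mem_F.1 hx)).trans h⟩

theorem PP_pseudobase (x : X) (O : Set X) (hO : IsOpen O) (hx : x ∈ O) :
    ∃ n, ∃ C ∈ PP n, x ∈ interior C ∧ C ⊆ O := by
  obtain ⟨G, hG, hxG, hsub⟩ := isOpen_X_iff.1 hO x hx
  have key : ∀ {w : W} {S : Set W}, S ∈ Fam w → x ∈ hat (interior S) → S ⊆ G →
      ∃ n, ∃ C ∈ PP n, x ∈ interior C ∧ C ⊆ O := by
    intro w S hS h1 h2
    refine ⟨code w, F w S, ⟨w, rfl, S, hS, rfl⟩, ?_, (F_sub_hat hS h2).trans hsub⟩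
    exact interior_maximal (hat_interior_sub hS) (isOpen_hat isOpen_interior) h1
  rcases X_cases x with ⟨t, rfl⟩ | ⟨y, rfl⟩
  · obtain ⟨m, hm⟩ := exists_label t
    obtain ⟨S, hS, h1, h2⟩ := exists_Fam (base_leaf m) t G hG (by
      intro κ hκ
      have hκ : κ = lf m := hκ
      rw [hκ, hm]
      exact fin_mem_hat.1 hxG)
    refine key hS ?_ h2
    have := h1 (lf m) rfl
    rw [hm] at this
    exact fin_mem_hat.2 this
  · obtain ⟨k, hk⟩ := inf_mem_hat.1 hxG
    obtain ⟨S, hS, h1, h2⟩ := exists_Fam base_univ (pre y k) G hG (fun κ _ => hk ⟨κ, rfl⟩)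
    refine key hS ⟨k, ?_⟩ h2
    rintro t' ⟨s, rfl⟩
    exact h1 s trivial

/-- the space is regular at the root -/
theorem reg_root (O : Set X) (hO : IsOpen O) (h : fin (lf 0) ∈ O) :
    ∃ C, IsClosed C ∧ fin (lf 0) ∈ interior C ∧ C ⊆ O := by
  obtain ⟨n, C, hC, h1, h2⟩ := PP_pseudobase _ O hO h
  exact ⟨C, PP_closed n C hC, h1, h2⟩

end Pool.Agent.Lib.MP_12964e_gt.h39c
end

section

set_option autoImplicit false

namespace Pool.Agent.Lib.MP_12964e_gt.h39c

open W TopologicalSpace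

/-- iterated section -/
def secq (R : Set W) (q : W) : Set W := {s | app q s ∈ R}

/-- iterated parameter -/
def subq (f : Par) (q : W) : Par := fun s => f (app q s)

theorem secq_ext (R : Set W) (q p : W) : secq R (app q (nd p (lf 0))) = sec (secq R q) p := by
  ext s
  change app (app q (nd p (lf 0))) s ∈ R ↔ app q (nd p s) ∈ R
  rw [app_assoc]
  rfl

theorem subq_ext (f : Par) (q p : W) : subq f (app q (nd p (lf 0))) = sub (subq f q) p := by
  funext s
  simp only [subq, sub, app_assoc]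
  rfl

theorem RC_secq (q : W) : ∀ {R : Set W}, RC R → RC (secq R q) := by
  induction q with
  | lf n => intro R hR; exact hR
  | nd p w _ ih => intro R hR; exact ih (RC_sec hR p)

/-- `q` is a mark for the parameter `f` -/
def Mark (R : Par → Set W) (q : W) (f : Par) : Prop :=
  lf 0 ∈ secq (R f) q ∧ secq (R f) q ⊆ U (subq f q)

/-- there are nonmeagre many parameters at the mark `q` -/
def HH (R : Par → Set W) (A0 : Set Par) (q : W) : Prop :=
  ¬ IsMeagre {g : Par | ∃ f ∈ A0, subq f q = g ∧ Mark R q f}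

theorem step {R : Par → Set W} {A0 : Set Par} (hR : ∀ f ∈ A0, RC (R f)) {q : W}
    (hq : HH R A0 q) :
    ∃ p, HH R A0 (app q (nd p (lf 0))) ∧
      ∃ f ∈ A0, lf 0 ∈ secq (R f) q ∧ ∀ s, app q (nd p s) ∉ R f := by
  classical
  set M : Set Par := {g : Par | ∃ f ∈ A0, subq f q = g ∧ Mark R q f} with hM
  obtain ⟨F, g0, hF⟩ := exists_cyl_everywhere hq
  set F' : Finset W := insert (lf 0) F with hF'
  have hsubF : cyl F' g0 ⊆ cyl F g0 := fun g hg z hz => hg z (Finset.mem_insert_of_mem hz)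
  set a : ℕ := g0 (lf 0) with ha
  set N : ℕ := F'.sup nu + 1 with hN
  set L : ℕ → ℕ := fun n => n + 1 - a with hL
  -- the sets of parameters with a given next mark
  set K : W → Set Par := fun p => {g : Par | g ∈ M ∩ cyl F' g0 ∧ N ≤ nu p ∧ L (nu p) ≤ kap p ∧
    ∃ f ∈ A0, subq f q = g ∧ Mark R q f ∧ Mark R (app q (nd p (lf 0))) f} with hK
  have hcover : M ∩ cyl F' g0 ⊆ ⋃ p, K p := by
    rintro g ⟨⟨f, hf, hfg, hmark⟩, hg⟩
    have h1 : secq (R f) q ⊆ U g := by rw [← hfg]; exact hmark.2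
    obtain ⟨p, hp1, hp2, hp3, hp4⟩ := exists_mark (RC_secq q (hR f hf)) hmark.1 h1 N L
    refine Set.mem_iUnion.2 ⟨p, ⟨⟨f, hf, hfg, hmark⟩, hg⟩, hp1, hp2, f, hf, hfg, hmark, ?_, ?_⟩
    · rw [secq_ext]
      exact hp3
    · rw [secq_ext, subq_ext, hfg]
      exact hp4
  have hnm : ¬ IsMeagre (M ∩ cyl F' g0) :=
    hF _ (isOpen_cyl _ _) ⟨g0, mem_cyl_self _ _⟩ hsubF
  obtain ⟨p, hp⟩ : ∃ p, ¬ IsMeagre (K p) := by
    by_contra hc
    push Not at hc
    exact hnm ((isMeagre_iUnion hc).mono hcover)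
  obtain ⟨g1, hg1⟩ := nonempty_of_not_isMeagre hp
  have hpN : N ≤ nu p := hg1.2.1
  have hpL : L (nu p) ≤ kap p := hg1.2.2.1
  refine ⟨p, ?_, ?_⟩
  · intro hmeag
    apply hp
    refine IsMeagre.mono ?_ (hmeag.preimage_of_isOpenMap (continuous_sub p) (isOpenMap_sub p))
    rintro g ⟨_, _, _, f, hf, hfg, _, hmark⟩
    exact ⟨f, hf, by rw [subq_ext, hfg], hmark⟩
  · -- exclusion
    set h : Par := fun z => if z ∈ F' then g0 z else mx p with hh
    set G : Finset W := F' ∪ ((trunc p).map (fun r => nd r (lf 0))).toFinset with hG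
    have hVsub : cyl G h ⊆ cyl F' g0 := by
      intro g hg z hz
      rw [hg z (Finset.mem_union_left _ hz)]
      simp only [hh, if_pos hz]
    have hV : ¬ IsMeagre (M ∩ cyl G h) :=
      hF _ (isOpen_cyl _ _) ⟨h, mem_cyl_self _ _⟩ (hVsub.trans hsubF)
    obtain ⟨g, ⟨f, hf, hfg, hmark⟩, hgV⟩ := nonempty_of_not_isMeagre hV
    refine ⟨f, hf, hmark.1, ?_⟩
    intro s hs
    have h1 : nd p s ∈ U g := by
      rw [← hfg]
      exact hmark.2 hs
    rw [nd_mem_U] at h1
    have h2 : kap p ≤ D p g := by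
      refine kap_le_D p (m := mx p) ?_ le_rfl
      intro r hr
      have hr1 : nd r (lf 0) ∈ G := by
        refine Finset.mem_union_right _ ?_
        rw [List.mem_toFinset, List.mem_map]
        exact ⟨r, hr, rfl⟩
      have hr2 : nd r (lf 0) ∉ F' := by
        intro hc
        have h3 : nu (nd r (lf 0)) ≤ F'.sup nu := Finset.le_sup hc
        have h4 : nu r = nu p := nu_trunc hr
        have h5 : nu (nd r (lf 0)) = nu r := rfl
        omega
      rw [hgV _ hr1]
      simp only [hh, if_neg hr2]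
      exact le_rfl
    have h5 : g (lf 0) = a := by
      have := hVsub hgV (lf 0) (Finset.mem_insert_self _ _)
      rw [this]
    have h6 := D_le_nd p s g
    simp only [hL] at hpL
    omega

end Pool.Agent.Lib.MP_12964e_gt.h39c
end

section

set_option autoImplicit false

namespace Pool.Agent.Lib.MP_12964e_gt.h39c

open W TopologicalSpace

theorem not_M1 (hreg : ∀ O : Set X, IsOpen O → fin (lf 0) ∈ O →
      ∃ C : Set X, IsClosed C ∧ fin (lf 0) ∈ interior C ∧ C ⊆ O) :
    ¬ ∃ B : ℕ → Set (Set X),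
        (∀ n, ∀ Q ⊆ B n, closure (⋃₀ Q) = ⋃₀ (closure '' Q)) ∧
        TopologicalSpace.IsTopologicalBasis (⋃ n, B n) := by
  classical
  rintro ⟨B, hcp, hbasis⟩
  have h1 : ∀ f : Par, ∃ (n : ℕ) (O : Set X), O ∈ B n ∧ IsOpen O ∧ fin (lf 0) ∈ O ∧
      closure O ⊆ hat (U f) := by
    intro f
    obtain ⟨C, hC, hxC, hsub⟩ := hreg (hat (U f)) (isOpen_hat (isOpen_U f))
      (fin_mem_hat.2 (lf_mem_U f 0))
    obtain ⟨O, hO, hxO, hOsub⟩ := hbasis.exists_subset_of_mem_open hxC isOpen_interior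
    obtain ⟨n, hn⟩ := Set.mem_iUnion.1 hO
    exact ⟨n, O, hn, hbasis.isOpen hO, hxO,
      (closure_minimal (hOsub.trans interior_subset) hC).trans hsub⟩
  choose n O hOB hOo hxO hOU using h1
  obtain ⟨k, hk⟩ : ∃ k, ¬ IsMeagre {f : Par | n f = k} := by
    by_contra hc
    push Not at hc
    have h2 : IsMeagre (Set.univ : Set Par) := by
      refine (isMeagre_iUnion hc).mono ?_
      intro f _
      exact Set.mem_iUnion.2 ⟨n f, rfl⟩
    exact not_isMeagre_of_isOpen isOpen_univ ⟨0, Set.mem_univ _⟩ h2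
  set A0 : Set Par := {f : Par | n f = k} with hA0
  set R : Par → Set W := fun f => tr (closure (O f)) with hR
  have hRC : ∀ f ∈ A0, RC (R f) := fun f _ => RC_tr_closure (hOo f)
  have hH0 : HH R A0 (lf 0) := by
    intro hmeag
    apply hk
    refine hmeag.mono ?_
    intro f hf
    exact ⟨f, hf, rfl, subset_closure (hxO f), fun t ht => fin_mem_hat.1 (hOU f ht)⟩
  have hstep : ∀ q : {q : W // HH R A0 q}, ∃ p, HH R A0 (app q.1 (nd p (lf 0))) ∧
      ∃ f ∈ A0, lf 0 ∈ secq (R f) q.1 ∧ ∀ s, app q.1 (nd p s) ∉ R f :=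
    fun q => step hRC q.2
  choose P hP1 fs hfA hf1 hf2 using hstep
  let Q : ℕ → {q : W // HH R A0 q} := fun m =>
    Nat.rec ⟨lf 0, hH0⟩ (fun _ q => ⟨app q.1 (nd (P q) (lf 0)), hP1 q⟩) m
  have hQ0 : (Q 0).1 = lf 0 := rfl
  have hQs : ∀ m, (Q (m + 1)).1 = app (Q m).1 (nd (P (Q m)) (lf 0)) := fun m => rfl
  let y : ℕ → W := fun m => P (Q m)
  have hQ : ∀ m, (Q m).1 = pre y m := by
    intro m
    induction m with
    | zero => rfl
    | succ m ih => rw [hQs, pre_succ, ih]
  set fam : Set (Set X) := Set.range (fun m => O (fs (Q m))) with hfam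
  have hfamB : fam ⊆ B k := by
    rintro _ ⟨m, rfl⟩
    have h3 : n (fs (Q m)) = k := hfA (Q m)
    rw [← h3]
    exact hOB _
  have hcl := hcp k fam hfamB
  have hy : inf y ∈ closure (⋃₀ fam) := by
    apply fin_pre_mem isClosed_closure
    intro m
    have h4 : fin (pre y m) ∈ closure (O (fs (Q m))) := by
      have h5 : app (Q m).1 (lf 0) ∈ R (fs (Q m)) := hf1 (Q m)
      rw [hQ m, app_pre_lf] at h5
      exact h5
    exact closure_mono (Set.subset_sUnion_of_mem
      (show O (fs (Q m)) ∈ fam from ⟨m, rfl⟩)) h4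
  rw [hcl] at hy
  obtain ⟨C, ⟨_, ⟨m, rfl⟩, rfl⟩, hyC⟩ := hy
  refine inf_not_mem_closure (hOo _) (k := m + 1) ?_ hyC
  rintro t ⟨s, rfl⟩ ht
  rw [pre_succ, app_assoc] at ht
  have h6 := hf2 (Q m) s
  rw [hQ m] at h6
  exact h6 ht

end Pool.Agent.Lib.MP_12964e_gt.h39c
end
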