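import Pool.Agent.Lib.MP_12964e_gt.h39c.M2
import Pool.Agent.Lib.MP_12964e_gt.h39c.NotM1

set_option autoImplicit false

namespace Pool.Agent.Lib.MP_12964e_gt.h39c

open W

theorem regularSpace_X : RegularSpace X := by
  refine RegularSpace.of_exists_mem_nhds_isClosed_subset ?_
  intro x s hs
  obtain ⟨O, hO, hOo, hxO⟩ := mem_nhds_iff.1 hs
  obtain ⟨n, C, hC, h1, h2⟩ := PP_pseudobase x O hOo hxO
  exact ⟨C, mem_interior_iff_mem_nhds.1 h1, PP_closed n C hC, h2.trans hO⟩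

/-- the stratifiable space -/
abbrev Y0 : Type := SeparationQuotient X

theorem t3Space_Y0 : T3Space Y0 := by
  have := regularSpace_X
  infer_instance

/-- its pseudobase -/
def QQ (n : ℕ) : Set (Set Y0) := {D | SeparationQuotient.mk ⁻¹' D ∈ PP n}

theorem QQ_closed (n : ℕ) : ∀ C ∈ QQ n, IsClosed C := by
  intro C hC
  rw [← SeparationQuotient.isQuotientMap_mk.isClosed_preimage]
  exact PP_closed n _ hC

theorem QQ_sUnion_closed (n : ℕ) : ∀ Q ⊆ QQ n, IsClosed (⋃₀ Q) := by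
  intro Q hQ
  rw [← SeparationQuotient.isQuotientMap_mk.isClosed_preimage]
  have h3 : (SeparationQuotient.mk ⁻¹' (⋃₀ Q) : Set X) =
      ⋃₀ ((fun D => SeparationQuotient.mk ⁻¹' D) '' Q) := by
    ext x
    constructor
    · rintro ⟨C, hC, hx⟩
      exact ⟨_, ⟨C, hC, rfl⟩, hx⟩
    · rintro ⟨_, ⟨C, hC, rfl⟩, hx⟩
      exact ⟨C, hC, hx⟩
  rw [h3]
  apply PP_sUnion_closed n
  rintro _ ⟨C, hC, rfl⟩
  exact hQ hC

theorem QQ_pseudobase (y : Y0) (O : Set Y0) (hO : IsOpen O) (hy : y ∈ O) :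
    ∃ n, ∃ C ∈ QQ n, y ∈ interior C ∧ C ⊆ O := by
  obtain ⟨x, rfl⟩ := SeparationQuotient.surjective_mk y
  obtain ⟨n, C, hC, h1, h2⟩ := PP_pseudobase x (SeparationQuotient.mk ⁻¹' O)
    (hO.preimage SeparationQuotient.continuous_mk) hy
  refine ⟨n, SeparationQuotient.mk '' C, ?_, ?_, ?_⟩
  · change SeparationQuotient.mk ⁻¹' (SeparationQuotient.mk '' C) ∈ PP n
    rw [SeparationQuotient.preimage_image_mk_closed (PP_closed n C hC)]
    exact hC
  · exact SeparationQuotient.isOpenMap_mk.image_interior_subset C ⟨x, h1, rfl⟩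
  · rintro _ ⟨z, hz, rfl⟩
    exact h2 hz

/-- the finite points of a member of the pseudobase are dense in it -/
theorem QQ_dense {n : ℕ} {C : Set Y0} (hC : C ∈ QQ n) {y : Y0} (hy : y ∈ C) {O : Set Y0}
    (hO : IsOpen O) (hyO : y ∈ O) :
    ∃ t : W, SeparationQuotient.mk (fin t) ∈ O ∧ SeparationQuotient.mk (fin t) ∈ C := by
  obtain ⟨x, rfl⟩ := SeparationQuotient.surjective_mk y
  obtain ⟨w, _, S, hS, hCS⟩ := hC
  have hxS : x ∈ F w S := by
    rw [← hCS]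
    exact hy
  obtain ⟨G, _, hxG, hGO⟩ := isOpen_X_iff.1 (hO.preimage SeparationQuotient.continuous_mk) x hyO
  have key : ∀ t, t ∈ S → t ∈ G → ∃ t : W, SeparationQuotient.mk (fin t) ∈ O ∧
      SeparationQuotient.mk (fin t) ∈ C := by
    intro t h1 h2
    refine ⟨t, hGO (fin_mem_hat.2 h2), ?_⟩
    have h3 : fin t ∈ F w S := fin_mem_F.2 h1
    rw [← hCS] at h3
    exact h3
  rcases X_cases x with ⟨t, rfl⟩ | ⟨y, rfl⟩
  · exact key t (fin_mem_F.1 hxS) (fin_mem_hat.1 hxG)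
  · obtain ⟨k, hk⟩ := inf_mem_hat.1 hxG
    have h1 := cone_of_mem hS (inf_mem_F.1 hxS)
    exact key (pre y (max k (len w + 1)))
      (h1 (Cone_pre_anti y (le_max_right _ _) (pre_mem_Cone y _)))
      (hk (Cone_pre_anti y (le_max_left _ _) (pre_mem_Cone y _)))

theorem Y0_not_M1 : ¬ ∃ B : ℕ → Set (Set Y0),
      (∀ n, ∀ Q ⊆ B n, closure (⋃₀ Q) = ⋃₀ (closure '' Q)) ∧
      TopologicalSpace.IsTopologicalBasis (⋃ n, B n) := by
  rintro ⟨B, hB, hbase⟩
  refine not_M1 reg_root ⟨fun n => {V | ∃ V' ∈ B n, V = SeparationQuotient.mk ⁻¹' V'}, ?_, ?_⟩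
  · intro n Q hQ
    set Q' : Set (Set (SeparationQuotient X)) :=
      {V' | V' ∈ B n ∧ SeparationQuotient.mk ⁻¹' V' ∈ Q} with hQ'
    have h1 : Q = (fun D => SeparationQuotient.mk ⁻¹' D) '' Q' := by
      ext V
      constructor
      · intro hV
        obtain ⟨V', hV', rfl⟩ := hQ hV
        exact ⟨V', ⟨hV', hV⟩, rfl⟩
      · rintro ⟨V', hV', rfl⟩
        exact hV'.2
    have h2 : ⋃₀ Q = SeparationQuotient.mk ⁻¹' (⋃₀ Q') := by
      rw [h1]
      ext x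
      constructor
      · rintro ⟨_, ⟨C, hC, rfl⟩, hx⟩
        exact ⟨C, hC, hx⟩
      · rintro ⟨C, hC, hx⟩
        exact ⟨_, ⟨C, hC, rfl⟩, hx⟩
    rw [h2, ← SeparationQuotient.preimage_mk_closure, hB n Q' (fun V' hV' => hV'.1), h1]
    ext x
    constructor
    · rintro ⟨_, ⟨C, hC, rfl⟩, hx⟩
      refine ⟨_, ⟨_, ⟨C, hC, rfl⟩, rfl⟩, ?_⟩
      rw [← SeparationQuotient.preimage_mk_closure]
      exact hx
    · rintro ⟨_, ⟨_, ⟨C, hC, rfl⟩, rfl⟩, hx⟩
      rw [← SeparationQuotient.preimage_mk_closure] at hx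
      exact ⟨_, ⟨C, hC, rfl⟩, hx⟩
  · refine TopologicalSpace.isTopologicalBasis_of_isOpen_of_nhds ?_ ?_
    · intro V hV
      obtain ⟨n, V', hV', rfl⟩ := Set.mem_iUnion.1 hV
      exact (hbase.isOpen (Set.mem_iUnion.2 ⟨n, hV'⟩)).preimage SeparationQuotient.continuous_mk
    · intro x O hx hO
      have h3 : SeparationQuotient.mk ⁻¹' (SeparationQuotient.mk '' O) = O :=
        SeparationQuotient.preimage_image_mk_open hO
      obtain ⟨V', hV', hxV, hVO⟩ := hbase.exists_subset_of_mem_open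
        (show SeparationQuotient.mk x ∈ SeparationQuotient.mk '' O from ⟨x, hx, rfl⟩)
        (SeparationQuotient.isOpenMap_mk O hO)
      obtain ⟨n, hn⟩ := Set.mem_iUnion.1 hV'
      refine ⟨SeparationQuotient.mk ⁻¹' V', Set.mem_iUnion.2 ⟨n, V', hn, rfl⟩, hxV, ?_⟩
      rw [← h3]
      exact Set.preimage_mono hVO

end Pool.Agent.Lib.MP_12964e_gt.h39c
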