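import Pool.Agent.Lib.MP_12964e_gt.h39c.Basic

set_option autoImplicit false

namespace Pool.Agent.Lib.MP_12964e_gt.h39c

open W

/-- small (nowhere dense) sets -/
def Small (A : Set W) : Prop :=
  ∀ (f : Par) (p : W), ∃ (f' : Par) (p' : W), E f' p' ⊆ E f p ∧ ∀ x ∈ E f' p', x ∉ A

theorem small_mono {A A' : Set W} (h : A ⊆ A') (hA : Small A') : Small A := by
  intro f p
  obtain ⟨f', p', h1, h2⟩ := hA f p
  exact ⟨f', p', h1, fun x hx hxA => h2 x hx (h hxA)⟩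

theorem small_empty : Small ∅ := fun f p => ⟨f, p, subset_rfl, fun _ _ h => h.elim⟩

theorem small_union {A A' : Set W} (hA : Small A) (hA' : Small A') : Small (A ∪ A') := by
  intro f p
  obtain ⟨f1, p1, h1, h2⟩ := hA f p
  obtain ⟨f2, p2, h3, h4⟩ := hA' f1 p1
  refine ⟨f2, p2, h3.trans h1, ?_⟩
  rintro x hx (hxA | hxA)
  · exact h2 x (h3 hx) hxA
  · exact h4 x hx hxA

theorem small_leaf : Small {t | t.leaf} :=
  fun f p => ⟨f, p, subset_rfl, fun _ hx h => not_leaf_of_E hx h⟩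

theorem small_singleton (x : W) : Small {x} := by
  intro f p
  by_cases h : x ∈ E f (nd p (lf 0))
  · refine ⟨f, nd p (lf 1), E_sub_E (root_mem_E f p 1), ?_⟩
    intro y hy hyx
    have hyx : y = x := hyx
    rw [hyx] at hy
    have := Ab_nd_inj (E_sub_Ab h) (E_sub_Ab hy)
    injection this with h1
    exact absurd h1 (by norm_num)
  · refine ⟨f, nd p (lf 0), E_sub_E (root_mem_E f p 0), ?_⟩
    intro y hy hyx
    have hyx : y = x := hyx
    rw [hyx] at hy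
    exact h hy

/-- basic neighbourhood of a non-root point -/
def B (p : W) (W0 J : Set W) (g : W → Par) : Set W :=
  {x | (∃ s ∈ W0, x = nd p s) ∨ ∃ s ∈ W0, s ∉ J ∧ x ∈ E (g s) (nd p s)}

/-- the basic neighbourhoods of a point -/
def nhd : W → Set (Set W)
  | lf _ => {N | ∃ f : Par, N = U f}
  | nd p s => {N | ∃ W0 ∈ nhd s, ∃ J : Set W, Small J ∧ ∃ g : W → Par, N = B p W0 J g}

theorem B_mem {p s : W} {W0 J : Set W} {g : W → Par} (h : s ∈ W0) : nd p s ∈ B p W0 J g :=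
  Or.inl ⟨s, h, rfl⟩

theorem B_sub {p : W} {W0 W1 J J' : Set W} {g g' : W → Par} (hW : W1 ⊆ W0) (hJ : J ⊆ J')
    (hg : ∀ s, g s ≤ g' s) : B p W1 J' g' ⊆ B p W0 J g := by
  rintro x (⟨s, hs, rfl⟩ | ⟨s, hs, hsJ, hx⟩)
  · exact Or.inl ⟨s, hW hs, rfl⟩
  · exact Or.inr ⟨s, hW hs, fun h => hsJ (hJ h), E_anti (hg s) _ hx⟩

theorem nhd_mem {t : W} : ∀ {N : Set W}, N ∈ nhd t → t ∈ N := by
  induction t with
  | lf n =>
    rintro N ⟨f, rfl⟩
    exact lf_mem_U f n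
  | nd p s _ ihs =>
    rintro N ⟨W0, hW0, J, _, g, rfl⟩
    exact B_mem (ihs hW0)

theorem nhd_nonempty (t : W) : ∃ N, N ∈ nhd t := by
  induction t with
  | lf n => exact ⟨U 0, 0, rfl⟩
  | nd p s _ ihs =>
    obtain ⟨W0, hW0⟩ := ihs
    exact ⟨B p W0 ∅ 0, W0, hW0, ∅, small_empty, 0, rfl⟩

theorem nhd_inter {t : W} : ∀ {N N' : Set W}, N ∈ nhd t → N' ∈ nhd t →
    ∃ N'' ∈ nhd t, N'' ⊆ N ∩ N' := by
  induction t with
  | lf n =>
    rintro N N' ⟨f, rfl⟩ ⟨f', rfl⟩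
    exact ⟨U (f ⊔ f'), ⟨_, rfl⟩, Set.subset_inter (U_anti le_sup_left) (U_anti le_sup_right)⟩
  | nd p s _ ihs =>
    rintro N N' ⟨W0, hW0, J, hJ, g, rfl⟩ ⟨W0', hW0', J', hJ', g', rfl⟩
    obtain ⟨W1, hW1, hsub⟩ := ihs hW0 hW0'
    refine ⟨B p W1 (J ∪ J') (g ⊔ g'), ⟨W1, hW1, _, small_union hJ hJ', _, rfl⟩, Set.subset_inter ?_ ?_⟩
    · exact B_sub (fun x hx => (hsub hx).1) Set.subset_union_left (fun s => le_sup_left)
    · exact B_sub (fun x hx => (hsub hx).2) Set.subset_union_right (fun s => le_sup_right)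

theorem U_nhd (t : W) : ∀ f : Par, t ∈ U f → ∃ N ∈ nhd t, N ⊆ U f := by
  induction t with
  | lf n =>
    intro f _
    exact ⟨U f, ⟨f, rfl⟩, subset_rfl⟩
  | nd p s _ ihs =>
    intro f hf
    rw [nd_mem_U] at hf
    by_cases hs : s ∈ U (sub f p)
    · obtain ⟨W1, hW1, hsub⟩ := ihs (sub f p) hs
      refine ⟨B p W1 ∅ (fun _ => f), ⟨W1, hW1, ∅, small_empty, _, rfl⟩, ?_⟩
      rw [D_nd_mem hs] at hf
      rintro x (⟨s', hs', rfl⟩ | ⟨s', hs', _, hx⟩)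
      · rw [nd_mem_U, D_nd_mem (hsub hs')]
        exact hf
      · refine Or.inr ?_
        rw [D_of_E hx, D_nd_mem (hsub hs'), nu_of_Ab (E_sub_Ab hx)]
        exact hf
    · obtain ⟨W1, hW1⟩ := nhd_nonempty s
      refine ⟨B p W1 ∅ (fun _ => f), ⟨W1, hW1, ∅, small_empty, _, rfl⟩, ?_⟩
      rw [D_nd_not_mem hs] at hf
      rintro x (⟨s', hs', rfl⟩ | ⟨s', hs', _, hx⟩)
      · rw [nd_mem_U]
        exact le_trans (Nat.add_le_add_left (D_nd_le _ _ _) _) hf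
      · refine Or.inr ?_
        rw [D_of_E hx, nu_of_Ab (E_sub_Ab hx)]
        exact le_trans (Nat.add_le_add_left (D_nd_le _ _ _) _) hf

theorem E_nhd {f : Par} {p x : W} (h : x ∈ E f p) : ∃ N ∈ nhd x, N ⊆ E f p := by
  have key : ∀ q u : W, u ∈ U (sub f q) → (∀ u' ∈ U (sub f q), nd q u' ∈ E f p) →
      ∃ N ∈ nhd (nd q u), N ⊆ E f p := by
    intro q u hu hq
    obtain ⟨W1, hW1, hsub⟩ := U_nhd u (sub f q) hu
    refine ⟨B q W1 ∅ (fun _ => f), ⟨W1, hW1, ∅, small_empty, _, rfl⟩, ?_⟩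
    rintro x (⟨s', hs', rfl⟩ | ⟨s', hs', _, hx⟩)
    · exact hq s' (hsub hs')
    · exact E_sub_E (hq s' (hsub hs')) hx
  cases h with
  | base u hu => exact key _ u hu (fun u' hu' => EE.base u' hu')
  | step q u hq hu => exact key _ u hu (fun u' hu' => EE.step q u' hq hu')

theorem nhd_open {t : W} : ∀ {N : Set W}, N ∈ nhd t → ∀ x ∈ N, ∃ N' ∈ nhd x, N' ⊆ N := by
  induction t with
  | lf n =>
    rintro N ⟨f, rfl⟩ x hx
    exact U_nhd x f hx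
  | nd p s _ ihs =>
    rintro N ⟨W0, hW0, J, hJ, g, rfl⟩ x (⟨s', hs', rfl⟩ | ⟨s', hs', hsJ, hx⟩)
    · obtain ⟨W1, hW1, hsub⟩ := ihs hW0 s' hs'
      exact ⟨B p W1 J g, ⟨W1, hW1, J, hJ, g, rfl⟩, B_sub hsub subset_rfl (fun s => le_rfl)⟩
    · obtain ⟨N', hN', hsub⟩ := E_nhd hx
      exact ⟨N', hN', fun y hy => Or.inr ⟨s', hs', hsJ, hsub hy⟩⟩

instance instTopW : TopologicalSpace W where
  IsOpen G := ∀ t ∈ G, ∃ N ∈ nhd t, N ⊆ G
  isOpen_univ := fun t _ => by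
    obtain ⟨N, hN⟩ := nhd_nonempty t
    exact ⟨N, hN, Set.subset_univ _⟩
  isOpen_inter := by
    intro G G' hG hG' t ht
    obtain ⟨N, hN, hsub⟩ := hG t ht.1
    obtain ⟨N', hN', hsub'⟩ := hG' t ht.2
    obtain ⟨N'', hN'', hsub''⟩ := nhd_inter hN hN'
    exact ⟨N'', hN'', fun x hx => ⟨hsub (hsub'' hx).1, hsub' (hsub'' hx).2⟩⟩
  isOpen_sUnion := by
    intro S hS t ht
    obtain ⟨G, hG, htG⟩ := ht
    obtain ⟨N, hN, hsub⟩ := hS G hG t htG
    exact ⟨N, hN, hsub.trans (Set.subset_sUnion_of_mem hG)⟩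

theorem isOpen_W_iff {G : Set W} : IsOpen G ↔ ∀ t ∈ G, ∃ N ∈ nhd t, N ⊆ G := Iff.rfl

theorem isOpen_nhd {t : W} {N : Set W} (h : N ∈ nhd t) : IsOpen N :=
  isOpen_W_iff.2 (fun x hx => nhd_open h x hx)

theorem isOpen_U (f : Par) : IsOpen (U f) := isOpen_W_iff.2 (fun x hx => U_nhd x f hx)

theorem isOpen_E (f : Par) (p : W) : IsOpen (E f p) := isOpen_W_iff.2 (fun _ hx => E_nhd hx)

theorem E_nonempty (f : Par) (p : W) : (E f p).Nonempty := ⟨_, root_mem_E f p 0⟩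

theorem exists_E_sub_nhd {t : W} : ∀ {N : Set W}, N ∈ nhd t → ∃ f p, E f p ⊆ N := by
  induction t with
  | lf n =>
    rintro N ⟨f, rfl⟩
    refine ⟨f, lf (f (lf 0)), ?_⟩
    intro x hx
    refine Or.inr ?_
    rw [D_of_E hx, nu_of_Ab (E_sub_Ab hx)]
    simp only [D, nu]
    omega
  | nd p s _ ihs =>
    rintro N ⟨W0, hW0, J, hJ, g, rfl⟩
    obtain ⟨f, q, hsub⟩ := ihs hW0
    obtain ⟨f', q', h1, h2⟩ := hJ f q
    obtain ⟨s', hs'⟩ := E_nonempty f' q'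
    exact ⟨g s', nd p s', fun x hx => Or.inr ⟨s', hsub (h1 hs'), h2 s' hs', hx⟩⟩

theorem exists_E_sub_open {G : Set W} (hG : IsOpen G) (hne : G.Nonempty) : ∃ f p, E f p ⊆ G := by
  obtain ⟨t, ht⟩ := hne
  obtain ⟨N, hN, hsub⟩ := isOpen_W_iff.1 hG t ht
  obtain ⟨f, p, h⟩ := exists_E_sub_nhd hN
  exact ⟨f, p, h.trans hsub⟩

/-- nonempty open sets are not small, in a strong form -/
theorem exists_E_avoid {G J : Set W} (hG : IsOpen G) (hne : G.Nonempty) (hJ : Small J) :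
    ∃ f p, E f p ⊆ G ∧ ∀ x ∈ E f p, x ∉ J := by
  obtain ⟨f, p, h⟩ := exists_E_sub_open hG hne
  obtain ⟨f', p', h1, h2⟩ := hJ f p
  exact ⟨f', p', h1.trans h, h2⟩

theorem exists_not_mem_small {G J : Set W} (hG : IsOpen G) (hne : G.Nonempty) (hJ : Small J) :
    ∃ x ∈ G, x ∉ J := by
  obtain ⟨f, p, h1, h2⟩ := exists_E_avoid hG hne hJ
  obtain ⟨x, hx⟩ := E_nonempty f p
  exact ⟨x, h1 hx, h2 x hx⟩

/-- complements of the basic neighbourhoods of the root are open -/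
theorem U_compl_nhd (t : W) : ∀ f : Par, t ∉ U f → ∃ N ∈ nhd t, ∀ x ∈ N, x ∉ U f := by
  induction t with
  | lf n =>
    intro f hf
    exact (hf (lf_mem_U f n)).elim
  | nd p s _ ihs =>
    intro f hf
    rw [nd_mem_U] at hf
    by_cases hs : s ∈ U (sub f p)
    · obtain ⟨W1, hW1⟩ := nhd_nonempty s
      refine ⟨B p W1 ∅ (fun _ => f), ⟨W1, hW1, ∅, small_empty, _, rfl⟩, ?_⟩
      rw [D_nd_mem hs] at hf
      rintro x (⟨s', hs', rfl⟩ | ⟨s', hs', _, hx⟩) hxU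
      · rw [nd_mem_U] at hxU
        exact hf (le_trans (Nat.add_le_add_left (D_le_nd _ _ _) _) hxU)
      · rcases hxU with h | h
        · exact not_leaf_of_E hx h
        · rw [D_of_E hx, nu_of_Ab (E_sub_Ab hx)] at h
          exact hf (le_trans (Nat.add_le_add_left (D_le_nd _ _ _) _) h)
    · obtain ⟨W1, hW1, hdis⟩ := ihs (sub f p) hs
      refine ⟨B p W1 ∅ (fun _ => f), ⟨W1, hW1, ∅, small_empty, _, rfl⟩, ?_⟩
      rw [D_nd_not_mem hs] at hf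
      rintro x (⟨s', hs', rfl⟩ | ⟨s', hs', _, hx⟩) hxU
      · rw [nd_mem_U, D_nd_not_mem (hdis s' hs')] at hxU
        exact hf hxU
      · rcases hxU with h | h
        · exact not_leaf_of_E hx h
        · rw [D_of_E hx, nu_of_Ab (E_sub_Ab hx), D_nd_not_mem (hdis s' hs')] at h
          exact hf h

theorem isClosed_U (f : Par) : IsClosed (U f) := by
  rw [← isOpen_compl_iff, isOpen_W_iff]
  intro t ht
  obtain ⟨N, hN, h⟩ := U_compl_nhd t f ht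
  exact ⟨N, hN, h⟩

end Pool.Agent.Lib.MP_12964e_gt.h39c
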